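import Pool.Agent.H596Z.Roe.Basic

/-!
Multiplication operators and weighted fibre embeddings.
-/

set_option autoImplicit false
set_option linter.unusedSectionVars false

namespace Pool.Agent.H596Z.Emb

open scoped InnerProductSpace ENNReal
open Pool.Agent.H812R3.KP Pool.Agent.H596Z.Roe

section mul

variable {X : Type}

theorem exists_mulop (c : X → ℂ) (C : ℝ) (h : ∀ x, ‖c x‖ ≤ C) :
    ∃ T : B X, ∀ (ξ : L2 X) x, (T ξ) x = c x * ξ x := by
  have hs : ∀ ξ : L2 X, ∀ x, ‖c x * ξ x‖ ^ 2 ≤ C ^ 2 * ‖ξ x‖ ^ 2 := by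
    intro ξ x
    rw [norm_mul, mul_pow]
    gcongr
    exact h x
  have hsum : ∀ ξ : L2 X, Summable fun x => ‖c x * ξ x‖ ^ 2 := fun ξ =>
    Summable.of_nonneg_of_le (fun _ => by positivity) (hs ξ) ((summable_sq ξ).mul_left _)
  let L : L2 X →ₗ[ℂ] L2 X :=
    { toFun := fun ξ => ⟨fun x => c x * ξ x, mem_of_summable (hsum ξ)⟩
      map_add' := fun ξ η => by
        ext x
        change c x * (ξ + η) x = c x * ξ x + c x * η x
        rw [lp.coeFn_add, Pi.add_apply, mul_add]
      map_smul' := fun a ξ => by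
        ext x
        change c x * (a • ξ) x = a * (c x * ξ x)
        rw [lp.coeFn_smul, Pi.smul_apply, smul_eq_mul]
        ring }
  refine ⟨L.mkContinuous |C| fun ξ => ?_, fun ξ x => rfl⟩
  refine norm_le_of_sum (by positivity) fun s => ?_
  calc ∑ x ∈ s, ‖(L ξ) x‖ ^ 2 ≤ ∑ x ∈ s, C ^ 2 * ‖ξ x‖ ^ 2 :=
        Finset.sum_le_sum fun x _ => hs ξ x
    _ = C ^ 2 * ∑ x ∈ s, ‖ξ x‖ ^ 2 := by rw [Finset.mul_sum]
    _ ≤ C ^ 2 * ‖ξ‖ ^ 2 := by
        gcongr
        exact sum_sq_le ξ s
    _ = (|C| * ‖ξ‖) ^ 2 := by rw [mul_pow, sq_abs]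

theorem exists_mulop' (c : X → ℂ) (C : ℝ) (h : ∀ x, ‖c x‖ ≤ C) :
    ∃ M : B X, (∀ (T : B X) x y, ent (M * T) x y = c x * ent T x y) ∧
      ∀ (T : B X) x y, ent (T * M) x y = ent T x y * c y := by
  classical
  obtain ⟨M, hM⟩ := exists_mulop c C h
  refine ⟨M, fun T x y => hM _ _, fun T x y => ?_⟩
  have h1 : M (dl y) = c y • dl y := by
    ext z
    rw [hM, lp.coeFn_smul, Pi.smul_apply, dl_apply]
    split_ifs with h2
    · simp [h2]
    · simp
  rw [ent, mul_apply_eq_comp, h1, map_smul, lp.coeFn_smul, Pi.smul_apply, smul_eq_mul, mul_comm]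
  rfl

end mul

/-- a map with finite fibres and normalised weights -/
structure Fib (X Y : Type) where
  q : Y → X
  fib : X → Finset Y
  mem_fib : ∀ x y, y ∈ fib x ↔ q y = x
  c : Y → ℝ
  norm : ∀ x, ∑ y ∈ fib x, c y ^ 2 = 1

namespace Fib

variable {X Y : Type} (D : Fib X Y)

/-- image of a basis vector -/
noncomputable def v (x : X) : L2 Y := ∑ y ∈ D.fib x, (D.c y : ℂ) • dl y

open Classical in
theorem v_apply (x : X) (y : Y) : (D.v x) y = if D.q y = x then (D.c y : ℂ) else 0 := by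
  rw [← inner_dl, v, inner_sum]
  simp only [inner_smul_right, inner_dl, dl_apply]
  by_cases h : D.q y = x
  · rw [Finset.sum_eq_single y, if_pos h]
    · simp
    · intro b _ hb
      rw [if_neg (fun h => hb h.symm), mul_zero]
    · intro h'
      exact absurd ((D.mem_fib x y).2 h) h'
  · rw [if_neg h]
    refine Finset.sum_eq_zero fun b hb => ?_
    rw [if_neg, mul_zero]
    rintro rfl
    exact h ((D.mem_fib x y).1 hb)

theorem v_orth : Orthonormal ℂ D.v := by
  classical
  rw [orthonormal_iff_ite]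
  intro x x'
  conv_lhs => rw [v, sum_inner]
  simp only [inner_smul_left, inner_dl, v_apply, Complex.conj_ofReal]
  by_cases h : x = x'
  · subst h
    rw [if_pos rfl]
    have := congrArg (fun t : ℝ => (t : ℂ)) (D.norm x)
    push_cast at this
    rw [← this]
    refine Finset.sum_congr rfl fun y hy => ?_
    rw [if_pos ((D.mem_fib x y).1 hy), sq]
  · rw [if_neg h]
    refine Finset.sum_eq_zero fun y hy => ?_
    rw [if_neg, mul_zero]
    rw [(D.mem_fib x y).1 hy]
    exact h

/-- the isometry -/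
noncomputable def V : L2 X →L[ℂ] L2 Y :=
  D.v_orth.orthogonalFamily.linearIsometry.toContinuousLinearMap

theorem V_dl (x : X) : D.V (dl x) = D.v x := by
  classical
  rw [← dl_eq_single]
  simp [V]

theorem norm_V : ‖D.V‖ ≤ 1 :=
  D.v_orth.orthogonalFamily.linearIsometry.norm_toContinuousLinearMap_le

theorem adj_V_dl (y : Y) :
    ContinuousLinearMap.adjoint D.V (dl y) = (D.c y : ℂ) • dl (D.q y) := by
  classical
  ext x
  rw [← inner_dl, ContinuousLinearMap.adjoint_inner_right, V_dl, ← inner_conj_symm, inner_dl,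
    v_apply, lp.coeFn_smul, Pi.smul_apply, dl_apply]
  by_cases h : D.q y = x
  · simp [h]
  · rw [if_neg h, if_neg (fun h' => h h'.symm)]
    simp

theorem adj_V_V : (ContinuousLinearMap.adjoint D.V).comp D.V = 1 := by
  classical
  apply ent_ext
  intro x x'
  rw [ent_eq_inner, ContinuousLinearMap.comp_apply, ContinuousLinearMap.adjoint_inner_right, V_dl,
    V_dl, ent_one]
  exact orthonormal_iff_ite.1 D.v_orth x x'

/-- the embedding -/
noncomputable def Φ (a : B X) : B Y := D.V.comp (a.comp (ContinuousLinearMap.adjoint D.V))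

theorem ent_Φ (a : B X) (y y' : Y) :
    ent (D.Φ a) y y' = D.c y * D.c y' * ent a (D.q y) (D.q y') := by
  rw [ent_eq_inner, Φ, ContinuousLinearMap.comp_apply, ← ContinuousLinearMap.adjoint_inner_left,
    ContinuousLinearMap.comp_apply, adj_V_dl, adj_V_dl, map_smul, inner_smul_left,
    inner_smul_right, ← ent_eq_inner, Complex.conj_ofReal, mul_assoc]

theorem adj_V_V_apply (ξ : L2 X) : ContinuousLinearMap.adjoint D.V (D.V ξ) = ξ :=
  congrArg (fun T : B X => T ξ) D.adj_V_V

theorem Φ_mul (a b : B X) : D.Φ (a * b) = D.Φ a * D.Φ b := by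
  ext ξ : 1
  simp only [Φ, mul_apply_eq_comp, ContinuousLinearMap.comp_apply, adj_V_V_apply]

theorem Φ_add (a b : B X) : D.Φ (a + b) = D.Φ a + D.Φ b := by
  ext ξ : 1
  simp [Φ]

theorem Φ_smul (c : ℂ) (a : B X) : D.Φ (c • a) = c • D.Φ a := by
  ext ξ : 1
  simp [Φ]

theorem Φ_star (a : B X) : D.Φ (star a) = star (D.Φ a) := by
  apply ent_ext
  intro y y'
  rw [ent_star, ent_Φ, ent_Φ, ent_star]
  simp only [map_mul, Complex.conj_ofReal]
  ring

theorem Φ_cont : Continuous D.Φ := by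
  unfold Φ
  exact (continuous_const.clm_comp (continuous_id.clm_comp continuous_const))

theorem Φ_inj : Function.Injective D.Φ := by
  intro a b h
  ext ξ : 1
  have h1 := congrArg (fun T : B Y => ContinuousLinearMap.adjoint D.V (T (D.V ξ))) h
  simpa only [Φ, ContinuousLinearMap.comp_apply, adj_V_V_apply] using h1

theorem Φ_compact {a : B X} (h : IsCompactOperator a) : IsCompactOperator (D.Φ a) :=
  (h.comp_clm (ContinuousLinearMap.adjoint D.V)).clm_comp D.V

end Fib

end Pool.Agent.H596Z.Emb
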