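import Mathlib

/-!
Balls in free groups, and a two colouring with bounded pieces.
-/

set_option autoImplicit false
set_option linter.unusedSectionVars false

namespace Pool.Agent.H596Z.Emb

open FreeGroup

variable {ι : Type} [DecidableEq ι]

theorem finite_ball [Finite ι] (k : ℕ) : {w : FreeGroup ι | FreeGroup.norm w ≤ k}.Finite := by
  refine ((List.finite_length_le (ι × Bool) k).image mk).subset ?_
  intro w hw
  exact ⟨w.toWord, hw, mk_toWord⟩

/-- the ball of radius `k` -/
noncomputable def ball (ι : Type) [DecidableEq ι] [Finite ι] (k : ℕ) : Finset (FreeGroup ι) :=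
  (finite_ball k).toFinset

theorem mem_ball [Finite ι] {k : ℕ} {w : FreeGroup ι} : w ∈ ball ι k ↔ FreeGroup.norm w ≤ k := by
  simp [ball]

theorem rtake_cons {α : Type} (y : α) (W : List α) {t : ℕ} (h : t ≤ W.length) :
    (y :: W).rtake t = W.rtake t := by
  unfold List.rtake
  rw [List.length_cons, show W.length + 1 - t = (W.length - t) + 1 by omega, List.drop_succ_cons]

theorem rtake_step (x : ι × Bool) (g : FreeGroup ι) {t : ℕ} (h : t + 1 ≤ FreeGroup.norm g) :
    (mk [x] * g).toWord.rtake t = g.toWord.rtake t := by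
  have h1 : mk [x] * g = mk (x :: g.toWord) := by
    conv_lhs => rw [← mk_toWord (x := g), mul_mk]
    rfl
  rw [h1, toWord_mk, reduce.cons, reduce_toWord]
  unfold FreeGroup.norm at h
  rcases hg : g.toWord with _ | ⟨y, W⟩
  · rw [hg] at h
    simp at h
  · rw [hg, List.length_cons] at h
    simp only
    split_ifs
    · rw [rtake_cons _ _ (by omega)]
    · rw [rtake_cons _ _ (by simp; omega)]

theorem norm_le_add (v g : FreeGroup ι) : FreeGroup.norm g ≤ FreeGroup.norm v + FreeGroup.norm (v * g) := by
  have := norm_mul_le v⁻¹ (v * g)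
  rwa [inv_mul_cancel_left, norm_inv_eq] at this

theorem rtake_mul (L : List (ι × Bool)) (g : FreeGroup ι) {t : ℕ} (h : t + L.length ≤ FreeGroup.norm g) :
    (mk L * g).toWord.rtake t = g.toWord.rtake t := by
  induction L with
  | nil => rw [← one_eq_mk, one_mul]
  | cons x L ih =>
    rw [List.length_cons] at h
    have h1 : mk (x :: L) * g = mk [x] * (mk L * g) := by
      rw [← mul_assoc, mul_mk]
      rfl
    have h2 := norm_le_add (mk L) g
    have h3 : FreeGroup.norm (mk L) ≤ L.length := norm_mk_le
    rw [h1, rtake_step x _ (by omega), ih (by omega)]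

theorem tree_colouring (s : ℕ) : ∃ (col : FreeGroup ι → ℕ) (key : FreeGroup ι → FreeGroup ι),
    (∀ g, col g < 2) ∧ (∀ g, FreeGroup.norm (g * (key g)⁻¹) ≤ 2 * s) ∧
    ∀ v g, FreeGroup.norm v ≤ s → col (v * g) = col g → key (v * g) = key g := by
  refine ⟨fun g => FreeGroup.norm g / (s + 1) % 2,
    fun g => mk (g.toWord.rtake (FreeGroup.norm g / (s + 1) * (s + 1) - s)),
    fun g => Nat.mod_lt _ (by norm_num), fun g => ?_, fun v g hv hc => ?_⟩
  · set t := FreeGroup.norm g / (s + 1) * (s + 1) - s with ht
    have h1 : g = mk (g.toWord.take (FreeGroup.norm g - t)) * mk (g.toWord.rtake t) := by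
      rw [mul_mk]
      unfold List.rtake
      rw [show g.toWord.length = FreeGroup.norm g from rfl, List.take_append_drop, mk_toWord]
    have h2 : g * (mk (g.toWord.rtake t))⁻¹ = mk (g.toWord.take (FreeGroup.norm g - t)) := by
      rw [mul_inv_eq_iff_eq_mul]
      exact h1
    simp only
    rw [h2]
    refine norm_mk_le.trans ((List.length_take_le _ _).trans ?_)
    have h3 := Nat.div_add_mod (FreeGroup.norm g) (s + 1)
    have h4 := Nat.mod_lt (FreeGroup.norm g) (show 0 < s + 1 by omega)
    rw [mul_comm] at h3
    omega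
  · have h1 := norm_le_add v g
    have h2 := norm_mul_le v g
    have h3 : FreeGroup.norm (v * g) / (s + 1) = FreeGroup.norm g / (s + 1) := by
      have h4 : FreeGroup.norm (v * g) / (s + 1) ≤ FreeGroup.norm g / (s + 1) + 1 := by
        rw [← Nat.add_div_right _ (show 0 < s + 1 by omega)]
        exact Nat.div_le_div_right (by omega)
      have h5 : FreeGroup.norm g / (s + 1) ≤ FreeGroup.norm (v * g) / (s + 1) + 1 := by
        rw [← Nat.add_div_right _ (show 0 < s + 1 by omega)]
        exact Nat.div_le_div_right (by omega)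
      simp only at hc
      omega
    simp only
    rw [h3]
    congr 1
    have h6 := Nat.div_mul_le_self (FreeGroup.norm g) (s + 1)
    rcases le_total (FreeGroup.norm g / (s + 1) * (s + 1)) s with h7 | h7
    · rw [Nat.sub_eq_zero_of_le h7]
      simp
    · conv_lhs => rw [← mk_toWord (x := v)]
      apply rtake_mul
      change _ + FreeGroup.norm v ≤ _
      omega

end Pool.Agent.H596Z.Emb
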