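import Pool.Agent.H596Z.Emb.Ops
import Pool.Agent.H596Z.Emb.Tree

/-!
The abstract setting: an equivariant map with expanding fibres.
-/

set_option autoImplicit false
set_option linter.unusedSectionVars false

namespace Pool.Agent.H596Z.Emb

open scoped InnerProductSpace ENNReal
open Pool.Agent.H812R3.KP Pool.Agent.H596Z.Roe Equiv Filter Topology

variable {ι : Type} [DecidableEq ι] [Finite ι]

/-- the gauge of an action with pieces and a good set -/
def gg {Z : Type} (α : FreeGroup ι →* Perm Z) (n : Z → ℕ) (hn : ∀ w z, n (α w z) = n z)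
    (G : Set Z) : Gauge Z where
  R k z z' := z = z' ∨ (z ∈ G ∧ z' ∈ G ∧ ∃ w : FreeGroup ι, w.norm ≤ k ∧ z = α w z') ∨
    (n z < k ∧ n z' < k)
  refl _ := Or.inl rfl
  eq0 z z' h := by
    rcases h with h | ⟨_, _, w, h1, h2⟩ | h
    · exact h
    · rw [FreeGroup.norm_eq_zero.1 (Nat.le_zero.1 h1)] at h2
      simpa using h2
    · omega
  symm k z z' h := by
    rcases h with h | ⟨h3, h4, w, h1, h2⟩ | h
    · exact Or.inl h.symm
    · refine Or.inr (Or.inl ⟨h4, h3, w⁻¹, by rwa [FreeGroup.norm_inv_eq], ?_⟩)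
      rw [h2, map_inv]
      simp
    · exact Or.inr (Or.inr h.symm)
  mono k l z z' hkl h := by
    rcases h with h | ⟨h3, h4, w, h1, h2⟩ | h
    · exact Or.inl h
    · exact Or.inr (Or.inl ⟨h3, h4, w, h1.trans hkl, h2⟩)
    · exact Or.inr (Or.inr (by omega))
  trans k l x y z h h' := by
    rcases h with h | ⟨h3, h4, w, h1, h2⟩ | h <;>
      rcases h' with h' | ⟨h3', h4', w', h1', h2'⟩ | h'
    · exact Or.inl (h.trans h')
    · subst h
      exact Or.inr (Or.inl ⟨h3', h4', w', by omega, h2'⟩)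
    · subst h
      exact Or.inr (Or.inr (by omega))
    · subst h'
      exact Or.inr (Or.inl ⟨h3, h4, w, by omega, h2⟩)
    · refine Or.inr (Or.inl ⟨h3, h4', w * w', ?_, ?_⟩)
      · have := FreeGroup.norm_mul_le w w'
        omega
      · rw [h2, h2', map_mul, Perm.mul_apply]
    · have := hn w y
      rw [← h2] at this
      exact Or.inr (Or.inr (by omega))
    · subst h'
      exact Or.inr (Or.inr (by omega))
    · have := hn w' z
      rw [← h2'] at this
      exact Or.inr (Or.inr (by omega))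
    · exact Or.inr (Or.inr (by omega))
  total z z' := ⟨n z + n z' + 1, Or.inr (Or.inr (by omega))⟩

theorem gg_ulf {Z : Type} (α : FreeGroup ι →* Perm Z) (n : Z → ℕ) (hn : ∀ w z, n (α w z) = n z)
    (G : Set Z) (hfin : ∀ k, {z | n z < k}.Finite) (r : ℝ) :
    ∃ N : ℕ, ∀ z, ∃ s : Finset Z, s.card ≤ N ∧
      @Metric.closedBall Z (gg α n hn G).metric.toPseudoMetricSpace z r ⊆ s := by
  classical
  refine ⟨(ball ι ⌊r⌋₊).card + (hfin ⌊r⌋₊).toFinset.card, fun z =>
    ⟨(ball ι ⌊r⌋₊).image (fun w => α w z) ∪ (hfin ⌊r⌋₊).toFinset, ?_, fun y hy => ?_⟩⟩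
  · exact (Finset.card_union_le _ _).trans (Nat.add_le_add_right Finset.card_image_le _)
  · simp only [Finset.coe_union, Finset.coe_image, Set.mem_union, Set.mem_image, Finset.mem_coe,
      mem_ball, Set.Finite.mem_toFinset, Set.mem_ofPred_eq]
    rcases (gg α n hn G).rel_of_dist_le hy with h | ⟨_, _, w, h1, h2⟩ | h
    · exact Or.inl ⟨1, by simp, by simp [h]⟩
    · exact Or.inl ⟨w, h1, h2.symm⟩
    · exact Or.inr h.1

open Classical in
/-- the data -/
structure Data (ι X Y : Type) [DecidableEq ι] where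
  αX : FreeGroup ι →* Perm X
  αY : FreeGroup ι →* Perm Y
  q : Y → X
  equiv : ∀ w y, q (αY w y) = αX w (q y)
  n : X → ℕ
  n_inv : ∀ w x, n (αX w x) = n x
  fin_n : ∀ k, {x | n x < k}.Finite
  fib : X → Finset Y
  mem_fib : ∀ x y, y ∈ fib x ↔ q y = x
  m : ℕ → ℕ
  card_fib : ∀ x, (fib x).card = m (n x)
  m_pos : ∀ k, 0 < m k
  G : Set Y
  half : ∀ x, m (n x) ≤ 2 * ((fib x).filter (· ∈ G)).card
  a : Fin 24 → FreeGroup ι
  a_fix : ∀ i x, αX (a i) x = x
  gap : ∀ x (f : Y → ℝ), ∑ y ∈ fib x, f y = 0 →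
    ∑ y ∈ fib x, f y ^ 2 ≤ 384 * ∑ i, ∑ y ∈ fib x, (f y - f (αY (a i) y)) ^ 2

namespace Data

variable {X Y : Type} (D : Data ι X Y)

theorem nq_inv (w : FreeGroup ι) (y : Y) : D.n (D.q (D.αY w y)) = D.n (D.q y) := by
  rw [D.equiv, D.n_inv]

/-- gauge on the base -/
def gX : Gauge X := gg D.αX D.n D.n_inv Set.univ

/-- auxiliary gauge on the total space -/
def gY' : Gauge Y := gg D.αY (fun y => D.n (D.q y)) D.nq_inv Set.univ

/-- gauge on the total space -/
def gY : Gauge Y := gg D.αY (fun y => D.n (D.q y)) D.nq_inv D.G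

theorem fin_nq (k : ℕ) : {y | D.n (D.q y) < k}.Finite := by
  refine ((D.fin_n k).biUnion (t := fun x => (D.fib x : Set Y))
    fun x _ => Finset.finite_toSet _).subset fun y hy => ?_
  exact Set.mem_biUnion (x := D.q y) hy ((D.mem_fib _ _).2 rfl)

/-- uniform weights -/
noncomputable def F0 : Fib X Y where
  q := D.q
  fib := D.fib
  mem_fib := D.mem_fib
  c y := 1 / Real.sqrt (D.m (D.n (D.q y)))
  norm x := by
    have h : ∀ y ∈ D.fib x, (1 / Real.sqrt (D.m (D.n (D.q y)))) ^ 2 = 1 / (D.m (D.n x) : ℝ) := by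
      intro y hy
      rw [(D.mem_fib x y).1 hy, div_pow, Real.sq_sqrt (by positivity), one_pow]
    rw [Finset.sum_congr rfl h, Finset.sum_const, D.card_fib, nsmul_eq_mul]
    have : (0 : ℝ) < D.m (D.n x) := by exact_mod_cast D.m_pos _
    field_simp

open Classical in
/-- number of good points in a fibre -/
noncomputable def gc (x : X) : ℕ := ((D.fib x).filter (· ∈ D.G)).card

theorem gc_pos (x : X) : 0 < D.gc x := by
  have h1 := D.half x
  have h2 := D.m_pos (D.n x)
  unfold gc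
  omega

open Classical in
/-- weights on the good set -/
noncomputable def F1 : Fib X Y where
  q := D.q
  fib := D.fib
  mem_fib := D.mem_fib
  c y := if y ∈ D.G then 1 / Real.sqrt (D.gc (D.q y)) else 0
  norm x := by
    have h : ∀ y ∈ D.fib x, (if y ∈ D.G then 1 / Real.sqrt (D.gc (D.q y)) else 0) ^ 2 =
        if y ∈ D.G then 1 / (D.gc x : ℝ) else 0 := by
      intro y hy
      split_ifs
      · rw [(D.mem_fib x y).1 hy, div_pow, Real.sq_sqrt (by positivity), one_pow]
      · simp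
    rw [Finset.sum_congr rfl h, ← Finset.sum_filter, Finset.sum_const, nsmul_eq_mul]
    have : (0 : ℝ) < D.gc x := by exact_mod_cast D.gc_pos _
    change (D.gc x : ℝ) * _ = _
    field_simp

theorem c0_inv (w : FreeGroup ι) (y : Y) : D.F0.c (D.αY w y) = D.F0.c y := by
  simp only [F0, nq_inv]

theorem c0_pos (y : Y) : 0 < D.F0.c y := by
  have : (0 : ℝ) < D.m (D.n (D.q y)) := by exact_mod_cast D.m_pos _
  simp only [F0]
  positivity

/-- projection on fibrewise constant functions -/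
noncomputable def p : B Y := D.F0.Φ 1

open Classical in
theorem ent_p (y y' : Y) :
    ent D.p y y' = D.F0.c y * D.F0.c y' * if D.q y = D.q y' then 1 else 0 := by
  rw [p, Fib.ent_Φ, ent_one]
  rfl

theorem p_proj : IsStarProjection D.p := by
  constructor
  · change D.p * D.p = D.p
    rw [p, ← Fib.Φ_mul, mul_one]
  · change star D.p = D.p
    rw [p, ← Fib.Φ_star, star_one]

/-- the fibre shifts -/
noncomputable def P (i : Fin 24) : B Y := perm (D.αY (D.a i))⁻¹

theorem P_apply (i : Fin 24) (ξ : L2 Y) (y : Y) : (D.P i ξ) y = ξ (D.αY (D.a i) y) := rfl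

theorem P_p (i : Fin 24) : D.P i * D.p = D.p := by
  apply ent_ext
  intro y y'
  change ent D.p (D.αY (D.a i) y) y' = _
  rw [ent_p, ent_p, c0_inv, D.equiv, D.a_fix]

theorem p_P (i : Fin 24) : D.p * D.P i = D.p := by
  apply ent_ext
  intro y y'
  rw [P, ent_mul_perm, ← map_inv, ent_p, ent_p, c0_inv, D.equiv, map_inv]
  have : (D.αX (D.a i))⁻¹ (D.q y') = D.q y' := by
    rw [Perm.inv_eq_iff_eq, D.a_fix]
  rw [this]

/-- the lazy averaging operator -/
noncomputable def A : B Y := (1 / 48 : ℂ) • ∑ i, (1 + D.P i)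

theorem A_p : D.A * D.p = D.p := by
  simp only [A, smul_mul_assoc, Finset.sum_mul, add_mul, one_mul, P_p, Finset.sum_const,
    Finset.card_univ, Fintype.card_fin]
  module

theorem p_A : D.p * D.A = D.p := by
  simp only [A, mul_smul_comm, Finset.mul_sum, mul_add, mul_one, p_P, Finset.sum_const,
    Finset.card_univ, Fintype.card_fin]
  module

theorem perm_FP (w : FreeGroup ι) : perm (D.αY w) ∈ @FP Y D.gY'.metric := by
  classical
  refine mem_FP_of_gauge D.gY' w.norm fun y y' h => ?_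
  rw [ent_perm] at h
  refine Or.inr (Or.inl ⟨trivial, trivial, w, le_rfl, ?_⟩)
  by_contra h1
  exact h (if_neg h1)

theorem A_FP : D.A ∈ @FPalg Y D.gY'.metric := by
  let _ := D.gY'.metric
  refine SMulMemClass.smul_mem _ (sum_mem fun i _ => add_mem (one_mem _) ?_)
  rw [P, ← map_inv]
  exact D.perm_FP _

theorem norm_A_apply (x : X) (η : L2 Y) (h0 : ∀ y, D.q y ≠ x → η y = 0)
    (h1 : ∑ y ∈ D.fib x, η y = 0) : ‖D.A η‖ ^ 2 ≤ (1 - 1 / (96 * 384)) * ‖η‖ ^ 2 := by
  have h2 : ‖η‖ ^ 2 = ∑ y ∈ D.fib x, ‖η y‖ ^ 2 := by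
    rw [norm_sq_eq]
    refine tsum_eq_sum fun y hy => ?_
    rw [h0 y (fun h => hy ((D.mem_fib x y).2 h))]
    simp
  have h3 := D.gap x (fun y => (η y).re) (by rw [← Complex.re_sum, h1]; rfl)
  have h4 := D.gap x (fun y => (η y).im) (by rw [← Complex.im_sum, h1]; rfl)
  have h5 : ‖η‖ ^ 2 ≤ 384 * ∑ i, ‖η - D.P i η‖ ^ 2 := by
    have h6 : ∀ z : ℂ, ‖z‖ ^ 2 = z.re ^ 2 + z.im ^ 2 := fun z => by
      rw [Complex.sq_norm, Complex.normSq_apply]
      ring
    have h7 : ∑ i, ∑ y ∈ D.fib x, ((η y).re - (η (D.αY (D.a i) y)).re) ^ 2 +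
        ∑ i, ∑ y ∈ D.fib x, ((η y).im - (η (D.αY (D.a i) y)).im) ^ 2 ≤
        ∑ i, ‖η - D.P i η‖ ^ 2 := by
      rw [← Finset.sum_add_distrib]
      refine Finset.sum_le_sum fun i _ => ?_
      refine le_trans (le_of_eq ?_) (sum_sq_le _ (D.fib x))
      rw [← Finset.sum_add_distrib]
      refine Finset.sum_congr rfl fun y _ => ?_
      rw [h6, lp.coeFn_sub, Pi.sub_apply, P_apply, Complex.sub_re, Complex.sub_im]
    rw [h2]
    simp only [h6]
    rw [Finset.sum_add_distrib]
    linarith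
  have h6 : ∀ i, ‖η + D.P i η‖ ^ 2 ≤ 4 * ‖η‖ ^ 2 - ‖η - D.P i η‖ ^ 2 := by
    intro i
    have h7 := parallelogram_law_with_norm ℂ η (D.P i η)
    have h8 : ‖D.P i η‖ ≤ ‖η‖ := by
      refine ((D.P i).le_opNorm η).trans ?_
      have : ‖D.P i‖ ≤ 1 := norm_pull_le _ _
      calc ‖D.P i‖ * ‖η‖ ≤ 1 * ‖η‖ := by gcongr
        _ = ‖η‖ := one_mul _
    have h9 : ‖D.P i η‖ ^ 2 ≤ ‖η‖ ^ 2 := by gcongr
    linarith
  have h7 : ‖D.A η‖ ≤ 1 / 48 * ∑ i, ‖η + D.P i η‖ := by
    rw [A, ContinuousLinearMap.smul_apply, norm_smul, ContinuousLinearMap.sum_apply]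
    have : ‖(1 / 48 : ℂ)‖ = 1 / 48 := by simp
    rw [this]
    gcongr
    exact norm_sum_le _ _
  have h8 := sq_sum_le_card_mul_sum_sq (s := (Finset.univ : Finset (Fin 24)))
    (f := fun i => ‖η + D.P i η‖)
  have h9 : ∑ i, ‖η + D.P i η‖ ^ 2 ≤ 96 * ‖η‖ ^ 2 - ∑ i, ‖η - D.P i η‖ ^ 2 := by
    refine (Finset.sum_le_sum fun i _ => h6 i).trans (le_of_eq ?_)
    rw [Finset.sum_sub_distrib, Finset.sum_const, Finset.card_univ, Fintype.card_fin, nsmul_eq_mul]
    push_cast
    ring
  simp only [Finset.card_univ, Fintype.card_fin] at h8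
  have h10 : ‖D.A η‖ ^ 2 ≤ (1 / 48 * ∑ i, ‖η + D.P i η‖) ^ 2 := by gcongr
  rw [mul_pow] at h10
  push_cast at h8
  linarith

theorem norm_A_sub_p : ‖D.A - D.p‖ < 1 := by
  classical
  have hlt : Real.sqrt (1 - 1 / (96 * 384)) < 1 := by
    rw [Real.sqrt_lt' one_pos]
    norm_num
  refine lt_of_le_of_lt (norm_le_of_blocks D.q (Real.sqrt_nonneg _) ?_ ?_) hlt
  · intro y y' h
    by_contra h1
    apply h
    have h2 : ∀ i, ent (1 + D.P i) y y' = 0 := by
      intro i
      rw [ent_add, ent_one, P, ent_perm, if_neg (by rintro rfl; exact h1 rfl), if_neg, add_zero]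
      intro h3
      apply h1
      rw [h3, ← map_inv, D.equiv, map_inv, Perm.inv_eq_iff_eq, D.a_fix]
    rw [ent_sub, ent_p, if_neg h1, A, ent_smul, ent_sum]
    simp [h2]
  · intro x ζ hζ
    set η := (1 - D.p) ζ with hη
    have h1 : (D.A - D.p) ζ = D.A η := by
      rw [hη, ← mul_apply_eq_comp, mul_sub, mul_one, A_p]
    have h2 : ‖η‖ ≤ ‖ζ‖ := by
      refine ((1 - D.p).le_opNorm ζ).trans ?_
      have : ‖1 - D.p‖ ≤ 1 := D.p_proj.one_sub.norm_le _
      calc ‖1 - D.p‖ * ‖ζ‖ ≤ 1 * ‖ζ‖ := by gcongr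
        _ = ‖ζ‖ := one_mul _
    have h3 : ∀ y, D.q y ≠ x → η y = 0 := by
      intro y hy
      have h4 : ((1 - D.p) ζ) y = ((1 - D.p) 0) y := by
        apply apply_congr_of_ent
        intro z hz
        apply hζ
        rintro rfl
        apply hz
        rw [ent_sub, ent_one, ent_p, if_neg hy, if_neg (by rintro rfl; exact hy rfl)]
        simp
      rw [hη, h4]
      simp
    have h4 : D.p η = 0 := by
      rw [hη, ← mul_apply_eq_comp, mul_sub, mul_one, D.p_proj.isIdempotentElem.eq, sub_self]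
      rfl
    have h5 : ContinuousLinearMap.adjoint D.F0.V η = 0 := by
      have := congrArg (ContinuousLinearMap.adjoint D.F0.V) h4
      rwa [p, Fib.Φ, ContinuousLinearMap.comp_apply, Fib.adj_V_V_apply, map_zero] at this
    have h6 : ⟪D.F0.v x, η⟫_ℂ = 0 := by
      rw [← Fib.V_dl, ← ContinuousLinearMap.adjoint_inner_right, h5, inner_zero_right]
    have h7 : ∑ y ∈ D.fib x, η y = 0 := by
      rw [Fib.v, sum_inner] at h6
      simp only [inner_smul_left, inner_dl, Complex.conj_ofReal] at h6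
      have h8 : ∀ y ∈ D.F0.fib x, (D.F0.c y : ℂ) * η y =
          ((1 / Real.sqrt (D.m (D.n x)) : ℝ) : ℂ) * η y := by
        intro y hy
        rw [← (D.mem_fib x y).1 hy]
        rfl
      rw [Finset.sum_congr rfl h8, ← Finset.mul_sum] at h6
      refine (mul_eq_zero.1 h6).resolve_left ?_
      have : (0 : ℝ) < D.m (D.n x) := by exact_mod_cast D.m_pos _
      exact Complex.ofReal_ne_zero.2 (by positivity)
    have h8 := D.norm_A_apply x η h3 h7
    rw [h1]
    apply le_of_sq_le_sq _ (by positivity)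
    rw [mul_pow, Real.sq_sqrt (by norm_num)]
    refine h8.trans ?_
    gcongr

theorem p_UR : D.p ∈ @UR Y D.gY'.metric := by
  let _ := D.gY'.metric
  have h1 : ∀ t : ℕ, D.A ^ (t + 1) = D.p + (D.A - D.p) ^ (t + 1) := by
    intro t
    induction t with
    | zero => simp
    | succ t ih =>
      have h2 : D.A ^ (t + 1) * D.p = D.p := by
        clear ih
        induction t with
        | zero => simpa using D.A_p
        | succ t ih => rw [pow_succ, mul_assoc, A_p, ih]
      have h3 : (D.A - D.p) ^ (t + 1) = D.A ^ (t + 1) - D.p := by rw [ih]; simp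
      rw [pow_succ (D.A - D.p), h3, mul_sub, sub_mul, sub_mul, h2, p_A,
        D.p_proj.isIdempotentElem.eq, ← pow_succ]
      simp
  have h2 : Tendsto (fun t : ℕ => D.A ^ (t + 1)) atTop (𝓝 D.p) := by
    simp only [h1]
    have := ((tendsto_pow_atTop_nhds_zero_of_norm_lt_one D.norm_A_sub_p).comp
      (tendsto_add_atTop_nat 1)).const_add D.p
    simpa using this
  exact mem_closure_of_tendsto h2 (Eventually.of_forall fun t => pow_mem D.A_FP _)

end Data

end Pool.Agent.H596Z.Emb
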