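import Pool.Agent.H596Z.Emb.Abs

/-!
The embedding of uniform Roe algebras, and the obstruction to coarse maps.
-/

set_option autoImplicit false
set_option linter.unusedSectionVars false

namespace Pool.Agent.H596Z.Emb

open scoped InnerProductSpace ENNReal
open Pool.Agent.H812R3.KP Pool.Agent.H596Z.Roe Equiv Filter Topology

variable {ι : Type} [DecidableEq ι] [Finite ι]

namespace Data

variable {X Y : Type} (D : Data ι X Y)

theorem mul_FP {Z : Type} [MetricSpace Z] {M : B Z} {c : Z → ℂ}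
    (h : ∀ (T : B Z) x y, ent (M * T) x y = c x * ent T x y) : M ∈ FP Z := by
  classical
  refine ⟨0, fun x y hxy => ?_⟩
  rw [← mul_one M, h, ent_one, if_neg, mul_zero]
  rintro rfl
  simp at hxy

theorem Φ0_word {b : B X} {k : ℕ}
    (hb : ∀ x x', ent b x x' ≠ 0 → ∃ w : FreeGroup ι, w.norm ≤ k ∧ x = D.αX w x') :
    D.F0.Φ b ∈ @UR Y D.gY'.metric := by
  classical
  let _ := D.gY'.metric
  choose! ch hch using hb
  have h1 : ∀ w : FreeGroup ι, ∃ M : B Y, ∀ (T : B Y) y y', ent (M * T) y y' =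
      (if ch (D.q y) ((D.αX w)⁻¹ (D.q y)) = w then ent b (D.q y) ((D.αX w)⁻¹ (D.q y)) else 0) *
        ent T y y' := by
    intro w
    obtain ⟨M, hM, -⟩ := exists_mulop' (fun y : Y =>
      if ch (D.q y) ((D.αX w)⁻¹ (D.q y)) = w then ent b (D.q y) ((D.αX w)⁻¹ (D.q y)) else 0) ‖b‖
      (fun y => by
        split_ifs
        · exact norm_ent_le _ _ _
        · simp)
    exact ⟨M, hM⟩
  choose M hM using h1
  have h2 : D.F0.Φ b = ∑ w ∈ ball ι k, M w * (perm (D.αY w) * D.p) := by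
    apply ent_ext
    intro y y'
    rw [Fib.ent_Φ, ent_sum]
    have h3 : ∀ w, ent (M w * (perm (D.αY w) * D.p)) y y' =
        if (D.αX w)⁻¹ (D.q y) = D.q y' ∧ ch (D.q y) (D.q y') = w then
          D.F0.c y * D.F0.c y' * ent b (D.q y) (D.q y') else 0 := by
      intro w
      rw [hM, ent_perm_mul, ent_p, ← Perm.inv_def, ← map_inv D.αY, c0_inv, D.equiv, map_inv]
      by_cases h4 : (D.αX w)⁻¹ (D.q y) = D.q y'
      · rw [h4]
        by_cases h5 : ch (D.q y) (D.q y') = w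
        · simp only [h5, if_true, and_self]
          ring
        · simp [h5]
      · rw [if_neg h4, if_neg (fun h => h4 h.1 : ¬ (_ ∧ _)), mul_zero, mul_zero]
    simp only [h3]
    change _ * _ * ent b (D.q y) (D.q y') = _
    by_cases h4 : ent b (D.q y) (D.q y') = 0
    · simp [h4]
    · obtain ⟨h5, h6⟩ := hch _ _ h4
      rw [Finset.sum_eq_single (ch (D.q y) (D.q y')), if_pos]
      · refine ⟨?_, rfl⟩
        rw [Perm.inv_eq_iff_eq]
        exact h6
      · intro w _ hw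
        exact if_neg fun h => hw h.2.symm
      · intro h
        exact absurd (mem_ball.2 h5) h
  rw [h2]
  exact sum_mem fun w _ => mul_mem (FP_sub_UR _ (mul_FP (hM w)))
    (mul_mem (FP_sub_UR _ (D.perm_FP w)) D.p_UR)

theorem Φ0_FP {a : B X} (ha : a ∈ @FP X D.gX.metric) : D.F0.Φ a ∈ @UR Y D.gY'.metric := by
  classical
  let _ := D.gY'.metric
  obtain ⟨k, hk⟩ := gauge_of_mem_FP D.gX ha
  have h1 : a = cut {x | k ≤ D.n x} * a + cut {x | k ≤ D.n x}ᶜ * a := by
    rw [← add_mul, cut_add_compl, one_mul]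
  rw [h1, Fib.Φ_add]
  refine add_mem (D.Φ0_word (k := k) fun x x' h => ?_) (FP_sub_UR _ ?_)
  · rw [ent_cut_mul] at h
    have h2 : x ∈ {x | k ≤ D.n x} := by
      by_contra h3
      exact h (if_neg h3)
    rw [if_pos h2] at h
    rcases hk x x' h with h3 | ⟨_, _, h3⟩ | h3
    · exact ⟨1, by simp, by simp [h3]⟩
    · exact h3
    · exact absurd h3.1 (not_lt.2 h2)
  · refine mem_FP_of_gauge D.gY' k fun y y' h => ?_
    rw [Fib.ent_Φ, ent_cut_mul] at h
    have h2 : D.F0.q y ∈ {x | k ≤ D.n x}ᶜ := by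
      by_contra h3
      apply h
      rw [if_neg h3, mul_zero]
    have h3 : D.n (D.F0.q y) < k := not_le.1 h2
    rw [if_pos h2] at h
    refine Or.inr (Or.inr ⟨h3, ?_⟩)
    change D.n (D.F0.q y') < k
    rcases hk _ _ (right_ne_zero_of_mul h) with h4 | ⟨_, _, w, _, h4⟩ | h4
    · exact h4 ▸ h3
    · have := D.n_inv w (D.F0.q y')
      rw [← h4] at this
      exact this ▸ h3
    · exact h4.2

theorem Φ1_UR {a : B X} (ha : a ∈ @UR X D.gX.metric) : D.F1.Φ a ∈ @UR Y D.gY.metric := by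
  classical
  obtain ⟨M, hM, hM'⟩ := exists_mulop' (fun y : Y => ((D.F1.c y / D.F0.c y : ℝ) : ℂ)) 2
    (fun y => by
      have h0 := D.c0_pos y
      have h1 : (0 : ℝ) < D.gc (D.q y) := by exact_mod_cast D.gc_pos _
      have h2 : (D.m (D.n (D.q y)) : ℝ) ≤ 2 * D.gc (D.q y) := by exact_mod_cast D.half (D.q y)
      rw [Complex.norm_real, Real.norm_eq_abs, abs_div, abs_of_pos h0, div_le_iff₀ h0]
      simp only [F1, F0]
      split_ifs
      · rw [abs_of_nonneg (by positivity), mul_one_div,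
          div_le_div_iff₀ (by positivity) (by simpa [F0] using h0), one_mul]
        rw [Real.sqrt_le_left (by positivity), mul_pow, Real.sq_sqrt h1.le]
        linarith
      · simp)
  have h1 : ∀ b, D.F1.Φ b = M * D.F0.Φ b * M := by
    intro b
    apply ent_ext
    intro y y'
    rw [hM', hM, Fib.ent_Φ, Fib.ent_Φ]
    have h2 : (D.F0.c y : ℂ) ≠ 0 := Complex.ofReal_ne_zero.2 (D.c0_pos y).ne'
    have h3 : (D.F0.c y' : ℂ) ≠ 0 := Complex.ofReal_ne_zero.2 (D.c0_pos y').ne'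
    push_cast
    change _ * _ * ent b (D.q y) (D.q y') = _ * (_ * _ * ent b (D.q y) (D.q y')) * _
    field_simp
  have h2 : ∀ T ∈ @FP Y D.gY'.metric, M * T * M ∈ @FP Y D.gY.metric := by
    intro T hT
    obtain ⟨k, hk⟩ := gauge_of_mem_FP D.gY' hT
    refine mem_FP_of_gauge D.gY k fun y y' h => ?_
    rw [hM', hM] at h
    have h3 : ∀ z, ((D.F1.c z / D.F0.c z : ℝ) : ℂ) ≠ 0 → z ∈ D.G := by
      intro z hz
      by_contra h4
      apply hz
      simp [F1, h4]
    have h4 := h3 y (left_ne_zero_of_mul (left_ne_zero_of_mul h))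
    have h5 := h3 y' (right_ne_zero_of_mul h)
    rcases hk y y' (right_ne_zero_of_mul (left_ne_zero_of_mul h)) with h6 | ⟨_, _, h6⟩ | h6
    · exact Or.inl h6
    · exact Or.inr (Or.inl ⟨h4, h5, h6⟩)
    · exact Or.inr (Or.inr h6)
  have h3 : D.F0.Φ a ∈ closure (@FP Y D.gY'.metric) := by
    have := map_mem_closure D.F0.Φ_cont ha (t := closure (@FP Y D.gY'.metric))
      fun b hb => D.Φ0_FP hb
    rwa [closure_closure] at this
  rw [h1]
  exact map_mem_closure (f := fun T => M * T * M)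
    ((continuous_const.mul continuous_id).mul continuous_const) h3 h2

theorem no_map (free : ∀ y ∈ D.G, ∀ w : FreeGroup ι, w.norm ≤ D.n (D.q y) → D.αY w y = y → w = 1)
    (conc : ∀ M : ℕ, ∃ L : ℕ, ∀ J : ℕ, ∃ S : Finset X, (∀ x ∈ S, J ≤ D.n x) ∧ S.Nonempty ∧
      (∀ x ∈ S, ∀ x' ∈ S, ∃ w : FreeGroup ι, w.norm ≤ L ∧ x = D.αX w x') ∧
      ∀ (col : X → ℕ) (key : X → FreeGroup ι), (∀ x, col x < 2) →
        (∀ κ, (S.filter fun x => key x = κ).card ≤ M) →
        ∃ x ∈ S, ∃ x' ∈ S, col x = col x' ∧ key x ≠ key x' ∧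
          ∃ w : FreeGroup ι, w.norm ≤ 8 ∧ x = D.αX w x')
    (f : X → Y) (hf : ∀ r : ℕ, ∃ s : ℕ, ∀ x x', D.gX.R r x x' → D.gY.R s (f x) (f x'))
    (N : ℕ) (hN : ∀ y, (f ⁻¹' {y}).encard ≤ N) : False := by
  classical
  obtain ⟨s, hs⟩ := hf 8
  obtain ⟨col, key, hcol, hkey, hck⟩ := tree_colouring (ι := ι) s
  obtain ⟨L, hL⟩ := conc ((ball ι (2 * s)).card * N)
  obtain ⟨t, ht⟩ := hf L
  have hfin : ∀ y, (f ⁻¹' {y}).Finite := fun y =>
    Set.finite_of_encard_le_coe (hN y)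
  have h1 : (f ⁻¹' {y | D.n (D.q y) < 2 * t + s}).Finite :=
    (D.fin_nq _).preimage' fun y _ => hfin y
  obtain ⟨J, hJ⟩ := (h1.image D.n).bddAbove
  obtain ⟨S, hS1, ⟨x0, hx0⟩, hS2, hS3⟩ := hL (J + 1)
  have h2 : ∀ x ∈ S, 2 * t + s ≤ D.n (D.q (f x)) := by
    intro x hx
    by_contra h3
    have h4 := hJ ⟨x, not_le.1 h3, rfl⟩
    have := hS1 x hx
    omega
  have hcard : ∀ y, (S.filter fun x => f x = y).card ≤ N := by
    intro y
    have h3 : ((S.filter fun x => f x = y : Finset X) : Set X) ⊆ f ⁻¹' {y} := by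
      intro x hx
      exact (Finset.mem_filter.1 hx).2
    have h4 := (Set.encard_le_encard h3).trans (hN y)
    rw [Set.encard_coe_eq_coe_finsetCard] at h4
    exact_mod_cast h4
  have h3 : ∀ x ∈ S, f x = f x0 ∨
      (f x0 ∈ D.G ∧ ∃ w : FreeGroup ι, w.norm ≤ t ∧ f x = D.αY w (f x0)) := by
    intro x hx
    rcases ht x x0 (Or.inr (Or.inl ⟨trivial, trivial, hS2 x hx x0 hx0⟩)) with h | ⟨_, h, h'⟩ | h
    · exact Or.inl h
    · exact Or.inr ⟨h, h'⟩
    · have := h2 x hx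
      have : D.n (D.q (f x)) < t := h.1
      omega
  have h4 : ∀ x ∈ S, ∃ w : FreeGroup ι, w.norm ≤ t ∧ f x = D.αY w (f x0) ∧
      (f x0 ∉ D.G → w = 1) := by
    intro x hx
    rcases h3 x hx with h | ⟨h, w, h5, h6⟩
    · exact ⟨1, by simp, by simp [h], fun _ => rfl⟩
    · exact ⟨w, h5, h6, fun h' => absurd h h'⟩
  choose! lam hlam using h4
  obtain ⟨x, hx, x', hx', h5, h6, h7⟩ := hS3 (fun x => col (lam x)) (fun x => key (lam x))
    (fun x => hcol _) (fun κ => by
      refine le_trans (Finset.card_le_card (t := (ball ι (2 * s)).biUnion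
        fun u => S.filter fun x => f x = D.αY (u * κ) (f x0)) ?_) ?_
      · intro x hx
        obtain ⟨h5, h6⟩ := Finset.mem_filter.1 hx
        refine Finset.mem_biUnion.2 ⟨lam x * (key (lam x))⁻¹, mem_ball.2 (hkey _),
          Finset.mem_filter.2 ⟨h5, ?_⟩⟩
        rw [← h6, inv_mul_cancel_right]
        exact (hlam x h5).2.1
      · exact Finset.card_biUnion_le_card_mul _ _ _ fun u _ => hcard _)
  apply h6
  by_cases hG : f x0 ∈ D.G
  swap
  · rw [(hlam x hx).2.2 hG, (hlam x' hx').2.2 hG]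
  have h8 : ∃ v : FreeGroup ι, v.norm ≤ s ∧ f x = D.αY v (f x') := by
    rcases hs x x' (Or.inr (Or.inl ⟨trivial, trivial, h7⟩)) with h | ⟨_, _, h⟩ | h
    · exact ⟨1, by simp, by simp [h]⟩
    · exact h
    · have := h2 x hx
      have : D.n (D.q (f x)) < s := h.1
      omega
  obtain ⟨v, h9, h10⟩ := h8
  have h11 : (lam x)⁻¹ * (v * lam x') = 1 := by
    apply free _ hG
    · have h12 := FreeGroup.norm_mul_le (lam x)⁻¹ (v * lam x')
      have h13 := FreeGroup.norm_mul_le v (lam x')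
      have h14 := (hlam x hx).1
      have h15 := (hlam x' hx').1
      have h16 := h2 x0 hx0
      rw [FreeGroup.norm_inv_eq] at h12
      omega
    · rw [map_mul, map_mul, Perm.mul_apply, Perm.mul_apply, ← (hlam x' hx').2.1, ← h10, map_inv,
        Perm.inv_eq_iff_eq]
      exact (hlam x hx).2.1
  rw [inv_mul_eq_one] at h11
  rw [h11] at h5 ⊢
  exact hck v _ h9 h5

end Data

end Pool.Agent.H596Z.Emb
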