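import Pool.Agent.H596Z.Emb.Rand
import Pool.Agent.Helper870.DWCH

/-!
Consequences of vertex expansion.
-/

set_option autoImplicit false
set_option linter.unusedSectionVars false

namespace Pool.Agent.H596Z.Emb

open Equiv

variable {V : Type} [DecidableEq V] [Fintype V]

theorem gap_of_exp {σ : Fin 24 → Perm V} (h : Exp σ) (f : V → ℝ) (hf : ∑ x, f x = 0) :
    ∑ x, f x ^ 2 ≤ 384 * ∑ i, ∑ x, (f x - f (σ i x)) ^ 2 := by
  let e : Fin 24 → V → V → ℝ := fun i x y => if σ i x = y then 1 else 0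
  have he0 : ∀ i x y, 0 ≤ e i x y := fun i x y => by
    simp only [e]
    split_ifs <;> norm_num
  have he1 : ∀ i x (g : V → ℝ), ∑ y, e i x y * g y = g (σ i x) := fun i x g => by
    simp [e]
  have he2 : ∀ i y, ∑ x, e i x y = 1 := fun i y => by
    simp only [e, ← Equiv.eq_symm_apply]
    simp
  have he3 : ∀ i x, ∑ y, e i x y = 1 := fun i x => by simp [e]
  let a : V → V → ℝ := fun x y => ∑ i, (e i x y + e i y x)
  obtain ⟨c, hc⟩ := DW.cheeger (fun _ : V => (48 : ℝ)) (fun _ => by norm_num) a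
    (fun x y => Finset.sum_nonneg fun i _ => add_nonneg (he0 _ _ _) (he0 _ _ _))
    (fun x y => Finset.sum_congr rfl fun i _ => add_comm _ _)
    (fun x => by
      simp only [a]
      rw [Finset.sum_comm]
      simp only [Finset.sum_add_distrib, he2, he3]
      norm_num)
    (1 / 96) (by norm_num) (fun S hS => by
      simp only [Finset.sum_const, nsmul_eq_mul, Finset.card_univ] at hS ⊢
      have h1 : 2 * S.card ≤ Fintype.card V := by
        have : (2 : ℝ) * S.card ≤ Fintype.card V := by linarith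
        exact_mod_cast this
      have h2 := h S h1
      have h3 : ((nb σ S \ S).card : ℝ) ≤ ∑ x ∈ S, ∑ y ∈ Sᶜ, a x y := by
        rw [Finset.sum_comm, Finset.card_eq_sum_ones]
        push_cast
        refine le_trans (Finset.sum_le_sum fun y hy => ?_)
          (Finset.sum_le_sum_of_subset_of_nonneg (s := nb σ S \ S) ?_ ?_)
        · obtain ⟨i, x, hx, hxy⟩ := mem_nb.1 (Finset.mem_sdiff.1 hy).1
          refine le_trans ?_ (Finset.single_le_sum (f := fun x => a x y)
            (fun x _ => Finset.sum_nonneg fun i _ => add_nonneg (he0 _ _ _) (he0 _ _ _)) hx)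
          refine le_trans ?_ (Finset.single_le_sum (f := fun i => e i x y + e i y x)
            (fun i _ => add_nonneg (he0 _ _ _) (he0 _ _ _)) (Finset.mem_univ i))
          have : e i x y = 1 := if_pos hxy
          linarith [he0 i y x]
        · intro y hy
          exact Finset.mem_compl.2 (Finset.mem_sdiff.1 hy).2
        · intro y _ _
          exact Finset.sum_nonneg fun x _ =>
            Finset.sum_nonneg fun i _ => add_nonneg (he0 _ _ _) (he0 _ _ _)
      have h4 := Finset.le_card_sdiff S (nb σ S)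
      have h5 : S.card ≤ 2 * (nb σ S \ S).card := by omega
      have h6 : (S.card : ℝ) ≤ 2 * (nb σ S \ S).card := by exact_mod_cast h5
      linarith) f
  have h1 : ∑ x, ∑ y, a x y * (f x - f y) ^ 2 = 2 * ∑ i, ∑ x, (f x - f (σ i x)) ^ 2 := by
    have h2 : ∑ x, ∑ y, ∑ i, e i x y * (f x - f y) ^ 2 = ∑ i, ∑ x, (f x - f (σ i x)) ^ 2 := by
      rw [Finset.sum_comm (s := Finset.univ) (t := Finset.univ)
        (f := fun i x => (f x - f (σ i x)) ^ 2)]
      refine Finset.sum_congr rfl fun x _ => ?_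
      rw [Finset.sum_comm]
      exact Finset.sum_congr rfl fun i _ => he1 i x (fun y => (f x - f y) ^ 2)
    have h3 : ∑ x, ∑ y, ∑ i, e i y x * (f x - f y) ^ 2 = ∑ i, ∑ x, (f x - f (σ i x)) ^ 2 := by
      rw [Finset.sum_comm, ← h2]
      refine Finset.sum_congr rfl fun x _ => Finset.sum_congr rfl fun y _ =>
        Finset.sum_congr rfl fun i _ => ?_
      ring
    simp only [a, Finset.sum_mul, add_mul, Finset.sum_add_distrib]
    rw [h2, h3]
    ring
  have h2 : ∑ x, f x ^ 2 ≤ ∑ x, (f x - c) ^ 2 := by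
    have : ∑ x, (f x - c) ^ 2 = ∑ x, f x ^ 2 - 2 * c * ∑ x, f x + ∑ _x : V, c ^ 2 := by
      rw [Finset.mul_sum, ← Finset.sum_sub_distrib, ← Finset.sum_add_distrib]
      exact Finset.sum_congr rfl fun x _ => by ring
    rw [this, hf]
    have : 0 ≤ ∑ _x : V, c ^ 2 := Finset.sum_nonneg fun _ _ => sq_nonneg _
    linarith
  rw [h1, ← Finset.mul_sum] at hc
  linarith

theorem card_le_nb (σ : Fin 24 → Perm V) (S : Finset V) : S.card ≤ (nb σ S).card := by
  rw [← Finset.card_image_of_injective S (σ 0).injective]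
  apply Finset.card_le_card
  intro y hy
  obtain ⟨x, hx, rfl⟩ := Finset.mem_image.1 hy
  exact mem_nb.2 ⟨0, x, hx, rfl⟩

theorem grow {σ : Fin 24 → Perm V} (h : Exp σ) (S : Finset V) (h0 : 0 < Fintype.card V)
    (hS : Fintype.card V ≤ 8 * S.card) :
    Fintype.card V < 2 * (nb σ (nb σ (nb σ (nb σ S)))).card := by
  have h1 := h S
  have h2 := h (nb σ S)
  have h3 := h (nb σ (nb σ S))
  have h4 := h (nb σ (nb σ (nb σ S)))
  have g1 := card_le_nb σ S
  have g2 := card_le_nb σ (nb σ S)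
  have g3 := card_le_nb σ (nb σ (nb σ S))
  have g4 := card_le_nb σ (nb σ (nb σ (nb σ S)))
  omega

theorem inter_of_big {S T : Finset V} (hS : Fintype.card V < 2 * S.card)
    (hT : Fintype.card V < 2 * T.card) : ∃ y, y ∈ S ∧ y ∈ T := by
  by_contra h
  push Not at h
  have h1 : Disjoint S T := Finset.disjoint_left.2 h
  have h2 := Finset.card_le_univ (S ∪ T)
  rw [Finset.card_union_of_disjoint h1] at h2
  omega

variable {ι : Type} [DecidableEq ι]

theorem nb_word (α : FreeGroup ι →* Perm V) (b : Fin 24 → FreeGroup ι) (hb : ∀ i, (b i).norm ≤ 1)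
    {S T : Finset V} {t : ℕ} (h : ∀ y ∈ T, ∃ w : FreeGroup ι, w.norm ≤ t ∧ ∃ x ∈ S, α w x = y) :
    ∀ y ∈ nb (fun i => α (b i)) T, ∃ w : FreeGroup ι, w.norm ≤ t + 1 ∧ ∃ x ∈ S, α w x = y := by
  intro y hy
  obtain ⟨i, z, hz, rfl⟩ := mem_nb.1 hy
  obtain ⟨w, h1, x, hx, rfl⟩ := h z hz
  refine ⟨b i * w, ?_, x, hx, by simp⟩
  have := FreeGroup.norm_mul_le (b i) w
  have := hb i
  omega

theorem close_of_exp (α : FreeGroup ι →* Perm V) (b : Fin 24 → FreeGroup ι)
    (hb : ∀ i, (b i).norm ≤ 1) (h : Exp fun i => α (b i)) (h0 : 0 < Fintype.card V)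
    {S T : Finset V} (hS : Fintype.card V ≤ 8 * S.card) (hT : Fintype.card V ≤ 8 * T.card) :
    ∃ x ∈ S, ∃ x' ∈ T, ∃ w : FreeGroup ι, w.norm ≤ 8 ∧ x = α w x' := by
  obtain ⟨y, h1, h2⟩ := inter_of_big (grow h S h0 hS) (grow h T h0 hT)
  have key : ∀ S : Finset V, ∀ y ∈ S, ∃ w : FreeGroup ι, w.norm ≤ 0 ∧ ∃ x ∈ S, α w x = y :=
    fun S y hy => ⟨1, by simp, y, hy, by simp⟩
  obtain ⟨w, h3, x, hx, h4⟩ :=
    nb_word α b hb (nb_word α b hb (nb_word α b hb (nb_word α b hb (key S)))) y h1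
  obtain ⟨w', h5, x', hx', h6⟩ :=
    nb_word α b hb (nb_word α b hb (nb_word α b hb (nb_word α b hb (key T)))) y h2
  refine ⟨x, hx, x', hx', w⁻¹ * w', ?_, ?_⟩
  · have := FreeGroup.norm_mul_le w⁻¹ w'
    rw [FreeGroup.norm_inv_eq] at this
    omega
  · rw [map_mul, Perm.mul_apply, h6, ← h4, map_inv]
    simp

theorem conn_of_exp (α : FreeGroup ι →* Perm V) (b : Fin 24 → FreeGroup ι)
    (h : Exp fun i => α (b i)) :
    ∃ D : ℕ, ∀ x x' : V, ∃ w : FreeGroup ι, w.norm ≤ D ∧ x = α w x' := by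
  classical
  have h1 : ∀ x : V, Fintype.card V <
      2 * (Finset.univ.filter fun y => ∃ w : FreeGroup ι, y = α w x).card := by
    intro x
    set S := Finset.univ.filter fun y => ∃ w : FreeGroup ι, y = α w x with hS
    have h2 : nb (fun i => α (b i)) S ⊆ S := by
      intro y hy
      obtain ⟨i, z, hz, rfl⟩ := mem_nb.1 hy
      rw [hS, Finset.mem_filter] at hz ⊢
      obtain ⟨w, rfl⟩ := hz.2
      exact ⟨Finset.mem_univ _, b i * w, by simp⟩
    have h3 := Finset.card_le_card h2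
    have h4 : 0 < S.card := Finset.card_pos.2 ⟨x, by
      rw [hS, Finset.mem_filter]
      exact ⟨Finset.mem_univ _, 1, by simp⟩⟩
    have h5 := h S
    omega
  have h2 : ∀ p : V × V, ∃ w : FreeGroup ι, p.1 = α w p.2 := by
    rintro ⟨x, x'⟩
    obtain ⟨y, h3, h4⟩ := inter_of_big (h1 x) (h1 x')
    obtain ⟨w, hw⟩ := (Finset.mem_filter.1 h3).2
    obtain ⟨w', hw'⟩ := (Finset.mem_filter.1 h4).2
    refine ⟨w⁻¹ * w', ?_⟩
    rw [map_mul, Perm.mul_apply, ← hw', hw, map_inv]
    simp
  choose w hw using h2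
  refine ⟨Finset.univ.sup fun p => (w p).norm, fun x x' => ⟨w (x, x'), ?_, hw (x, x')⟩⟩
  exact Finset.le_sup (f := fun p => (w p).norm) (Finset.mem_univ (x, x'))

theorem conc_of_exp (α : FreeGroup ι →* Perm V) (b : Fin 24 → FreeGroup ι)
    (hb : ∀ i, (b i).norm ≤ 1) (h : Exp fun i => α (b i)) (h0 : 0 < Fintype.card V)
    {K : Type} [DecidableEq K] (col : V → ℕ) (hcol : ∀ x, col x < 2) (key : V → K) (M : ℕ)
    (hM : ∀ κ, (Finset.univ.filter fun x => key x = κ).card ≤ M) (hV : 4 * M ≤ Fintype.card V) :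
    ∃ x x', col x = col x' ∧ key x ≠ key x' ∧ ∃ w : FreeGroup ι, w.norm ≤ 8 ∧ x = α w x' := by
  classical
  obtain ⟨c, hc⟩ : ∃ c, Fintype.card V ≤ 2 * (Finset.univ.filter fun x => col x = c).card := by
    have h1 := Finset.card_filter_add_card_filter_not (s := (Finset.univ : Finset V))
      (fun x => col x = 0)
    have h2 : (Finset.univ.filter fun x => ¬ col x = 0) = Finset.univ.filter fun x => col x = 1 := by
      apply Finset.filter_congr
      intro x _
      have := hcol x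
      omega
    rw [h2, Finset.card_univ] at h1
    by_cases h3 : Fintype.card V ≤ 2 * (Finset.univ.filter fun x => col x = 0).card
    · exact ⟨0, h3⟩
    · exact ⟨1, by omega⟩
  set C := Finset.univ.filter fun x => col x = c with hC
  have hex : ∃ j, ∃ A : Finset K, A.card = j ∧
      Fintype.card V ≤ 8 * (C.filter fun x => key x ∈ A).card := by
    refine ⟨_, C.image key, rfl, ?_⟩
    rw [Finset.filter_true_of_mem fun x hx => Finset.mem_image_of_mem _ hx]
    omega
  obtain ⟨A, hA, hA'⟩ := Nat.find_spec hex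
  obtain ⟨κ, hκ⟩ : A.Nonempty := by
    rw [Finset.nonempty_iff_ne_empty]
    rintro rfl
    simp at hA'
    omega
  have h1 : 8 * (C.filter fun x => key x ∈ A.erase κ).card < Fintype.card V := by
    by_contra h2
    have h3 := Nat.find_min' hex ⟨A.erase κ, rfl, not_lt.1 h2⟩
    rw [Finset.card_erase_of_mem hκ, ← hA] at h3
    have := Finset.card_pos.2 ⟨κ, hκ⟩
    omega
  have h2 : (C.filter fun x => key x ∈ A).card ≤ (C.filter fun x => key x ∈ A.erase κ).card + M := by
    refine le_trans (Finset.card_le_card ?_) ((Finset.card_union_le _ _).trans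
      (Nat.add_le_add_left (hM κ) _))
    intro x hx
    simp only [Finset.mem_union, Finset.mem_filter, Finset.mem_erase, Finset.mem_univ,
      true_and] at hx ⊢
    by_cases h3 : key x = κ
    · exact Or.inr h3
    · exact Or.inl ⟨hx.1, h3, hx.2⟩
  have h3 := Finset.card_filter_add_card_filter_not (s := C) (fun x => key x ∈ A)
  obtain ⟨x, hx, x', hx', hw⟩ := close_of_exp α b hb h h0 hA'
    (T := C.filter fun x => ¬ key x ∈ A) (by omega)
  simp only [hC, Finset.mem_filter, Finset.mem_univ, true_and] at hx hx'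
  exact ⟨x, x', hx.1.trans hx'.1.symm, fun h4 => hx'.2 (h4 ▸ hx.2), hw⟩

end Pool.Agent.H596Z.Emb
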