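import Pool.Agent.H596Z.Emb.Abs2
import Pool.Agent.H596Z.Emb.Expand

/-!
The concrete spaces.
-/

set_option autoImplicit false
set_option linter.unusedSectionVars false

namespace Pool.Agent.H596Z.Emb

open Pool.Agent.H812R3.KP Pool.Agent.H596Z.Roe Equiv

/-- sizes -/
noncomputable def mm (n : ℕ) : ℕ := (exists_tau n).choose

theorem lt_mm (n : ℕ) : n < mm n := (exists_tau n).choose_spec.1

/-- fibre permutations -/
noncomputable def tau (n : ℕ) : Let → Perm (Fin (mm n)) := (exists_tau n).choose_spec.2.choose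

theorem tau_exp (n : ℕ) : Exp fun i => tau n (Sum.inl i) :=
  (exists_tau n).choose_spec.2.choose_spec.1

theorem tau_W (n : ℕ) : 2 * (W (tau n) n).card ≤ mm n :=
  (exists_tau n).choose_spec.2.choose_spec.2

/-- base permutations -/
noncomputable def rho (k : ℕ) : Let → Perm (Fin (mm k)) :=
  Sum.elim (fun _ => 1) (fun i => tau k (Sum.inl i))

/-- the base -/
abbrev XX : Type := Σ n : ℕ, Fin (mm (Nat.unpair n).1)

/-- the total space -/
abbrev YY : Type := Σ n : ℕ, Fin (mm (Nat.unpair n).1) × Fin (mm n)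

/-- action on the base -/
noncomputable def aX : FreeGroup Let →* Perm XX where
  toFun w := Equiv.sigmaCongrRight fun n => FreeGroup.lift (rho (Nat.unpair n).1) w
  map_one' := by
    refine Equiv.ext fun x => ?_
    simp
  map_mul' v w := by
    refine Equiv.ext fun x => ?_
    simp

/-- action on the total space -/
noncomputable def aY : FreeGroup Let →* Perm YY where
  toFun w := Equiv.sigmaCongrRight fun n =>
    Equiv.prodCongr (FreeGroup.lift (rho (Nat.unpair n).1) w) (FreeGroup.lift (tau n) w)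
  map_one' := by
    refine Equiv.ext fun x => ?_
    simp
  map_mul' v w := by
    refine Equiv.ext fun x => ?_
    simp [Prod.map_map]

theorem aX_apply (w : FreeGroup Let) (n : ℕ) (x : Fin (mm (Nat.unpair n).1)) :
    aX w ⟨n, x⟩ = ⟨n, FreeGroup.lift (rho (Nat.unpair n).1) w x⟩ := rfl

theorem aY_apply (w : FreeGroup Let) (n : ℕ) (x : Fin (mm (Nat.unpair n).1)) (u : Fin (mm n)) :
    aY w ⟨n, (x, u)⟩ =
      ⟨n, (FreeGroup.lift (rho (Nat.unpair n).1) w x, FreeGroup.lift (tau n) w u)⟩ := rfl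

/-- fibre embedding -/
def fe (x : XX) : Fin (mm x.1) ↪ YY :=
  ⟨fun u => ⟨x.1, (x.2, u)⟩, fun u v h => by simpa using h⟩

/-- the data -/
noncomputable def DD : Data Let XX YY where
  αX := aX
  αY := aY
  q y := ⟨y.1, y.2.1⟩
  equiv _ _ := rfl
  n x := x.1
  n_inv _ _ := rfl
  fin_n k := by
    refine ((Set.finite_lt_nat k).biUnion (t := fun n => Set.range (Sigma.mk n))
      fun n _ => Set.finite_range _).subset ?_
    rintro ⟨n, x⟩ h
    exact Set.mem_biUnion (x := n) h ⟨x, rfl⟩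
  fib x := Finset.univ.map (fe x)
  mem_fib := by
    rintro ⟨n, x⟩ ⟨n', x', u⟩
    simp only [Finset.mem_map, Finset.mem_univ, true_and]
    constructor
    · rintro ⟨u, h⟩
      have := congrArg (fun y : YY => (⟨y.1, y.2.1⟩ : XX)) h
      exact this.symm
    · intro h
      cases h
      exact ⟨u, rfl⟩
  m := mm
  card_fib x := by simp
  m_pos k := (Nat.zero_le k).trans_lt (lt_mm k)
  G := {y | y.2.2 ∉ W (tau y.1) y.1}
  half x := by
    have h1 := tau_W x.1
    have h2 := Finset.card_compl (W (tau x.1) x.1)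
    rw [Fintype.card_fin] at h2
    have h4 : mm x.1 ≤ 2 * (W (tau x.1) x.1)ᶜ.card := by omega
    refine h4.trans (Nat.mul_le_mul_left _ ?_)
    rw [← Finset.card_map (fe x)]
    refine Finset.card_le_card fun y hy => ?_
    obtain ⟨u, hu, rfl⟩ := Finset.mem_map.1 hy
    simp only [Finset.mem_filter]
    exact ⟨Finset.mem_map_of_mem _ (Finset.mem_univ _), Finset.mem_compl.1 hu⟩
  a i := FreeGroup.of (Sum.inl i)
  a_fix i := by
    rintro ⟨n, x⟩
    rw [aX_apply, FreeGroup.lift_apply_of]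
    rfl
  gap x f hf := by
    simp only [Finset.sum_map] at hf ⊢
    have := gap_of_exp (tau_exp x.1) (fun u => f (fe x u)) hf
    refine this.trans (le_of_eq ?_)
    have h : ∀ i u, aY (FreeGroup.of (Sum.inl i)) (fe x u) = fe x (tau x.1 (Sum.inl i) u) := by
      intro i u
      change aY _ ⟨x.1, (x.2, u)⟩ = _
      rw [aY_apply, FreeGroup.lift_apply_of, FreeGroup.lift_apply_of]
      rfl
    simp only [h]

theorem DD_free : ∀ y ∈ DD.G, ∀ w : FreeGroup Let, w.norm ≤ DD.n (DD.q y) → DD.αY w y = y →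
    w = 1 := by
  rintro ⟨n, x, u⟩ hy w h1 h2
  by_contra h3
  apply hy
  have h4 : aY w ⟨n, (x, u)⟩ = ⟨n, (x, u)⟩ := h2
  rw [aY_apply] at h4
  simp only [Sigma.mk.injEq, heq_eq_eq, true_and, Prod.mk.injEq] at h4
  simp only [W, Finset.mem_filter, Finset.mem_univ, true_and]
  exact ⟨w, h3, h1, h4.2⟩

theorem rho_exp (k : ℕ) :
    Exp fun i => FreeGroup.lift (rho k) (FreeGroup.of (Sum.inr i : Let)) := by
  simp only [FreeGroup.lift_apply_of]
  exact tau_exp k

theorem DD_conc (M : ℕ) : ∃ L : ℕ, ∀ J : ℕ, ∃ S : Finset XX, (∀ x ∈ S, J ≤ DD.n x) ∧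
    S.Nonempty ∧ (∀ x ∈ S, ∀ x' ∈ S, ∃ w : FreeGroup Let, w.norm ≤ L ∧ x = DD.αX w x') ∧
      ∀ (col : XX → ℕ) (key : XX → FreeGroup Let), (∀ x, col x < 2) →
        (∀ κ, (S.filter fun x => key x = κ).card ≤ M) →
        ∃ x ∈ S, ∃ x' ∈ S, col x = col x' ∧ key x ≠ key x' ∧
          ∃ w : FreeGroup Let, w.norm ≤ 8 ∧ x = DD.αX w x' := by
  choose L hL using fun k => conn_of_exp (FreeGroup.lift (rho k)) _ (rho_exp k)
  refine ⟨L (4 * M), fun J => ?_⟩
  obtain ⟨n, hn1, hn2⟩ : ∃ n, (Nat.unpair n).1 = 4 * M ∧ J ≤ n :=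
    ⟨Nat.pair (4 * M) J, by simp, Nat.right_le_pair _ _⟩
  have h1 := lt_mm (Nat.unpair n).1
  let e : Fin (mm (Nat.unpair n).1) ↪ XX := ⟨fun x => ⟨n, x⟩, fun u v h => by simpa using h⟩
  refine ⟨Finset.univ.map e, ?_, ⟨e ⟨0, by omega⟩, Finset.mem_map_of_mem _ (Finset.mem_univ _)⟩,
    ?_, ?_⟩
  · intro x hx
    obtain ⟨u, -, rfl⟩ := Finset.mem_map.1 hx
    exact hn2
  · intro x hx x' hx'
    obtain ⟨u, -, rfl⟩ := Finset.mem_map.1 hx
    obtain ⟨u', -, rfl⟩ := Finset.mem_map.1 hx'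
    obtain ⟨w, h2, h3⟩ := hL _ u u'
    refine ⟨w, hn1 ▸ h2, ?_⟩
    rw [h3]
    rfl
  · intro col key hcol hkey
    obtain ⟨u, u', h2, h3, w, h4, h5⟩ := conc_of_exp (FreeGroup.lift (rho (Nat.unpair n).1)) _
      (fun i => (FreeGroup.norm_of _).le) (rho_exp _) (by rw [Fintype.card_fin]; omega)
      (fun u => col (e u)) (fun u => hcol _) (fun u => key (e u)) M (fun κ => by
        have := hkey κ
        rwa [Finset.filter_map, Finset.card_map] at this) (by rw [Fintype.card_fin]; omega)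
    refine ⟨e u, Finset.mem_map_of_mem _ (Finset.mem_univ _), e u',
      Finset.mem_map_of_mem _ (Finset.mem_univ _), h2, h3, w, h4, ?_⟩
    rw [h5]
    rfl

theorem main : ∃ (X Y : Type) (_ : MetricSpace X) (_ : MetricSpace Y),
    (∀ r : ℝ, ∃ N : ℕ, ∀ x : X, ∃ s : Finset X, s.card ≤ N ∧ Metric.closedBall x r ⊆ s) ∧
    (∀ r : ℝ, ∃ N : ℕ, ∀ y : Y, ∃ s : Finset Y, s.card ≤ N ∧ Metric.closedBall y r ⊆ s) ∧
    (∃ F : Fib X Y, ∀ a ∈ UR X, F.Φ a ∈ UR Y) ∧
    ∀ f : X → Y, (∀ r : ℝ, 0 < r → ∃ s : ℝ, ∀ x x', dist x x' ≤ r → dist (f x) (f x') ≤ s) →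
      ∀ N : ℕ, ¬ ∀ y, (f ⁻¹' {y}).encard ≤ N := by
  refine ⟨XX, YY, DD.gX.metric, DD.gY.metric, gg_ulf _ _ _ _ DD.fin_n, gg_ulf _ _ _ _ DD.fin_nq,
    ⟨DD.F1, fun a ha => DD.Φ1_UR ha⟩, fun f hf N hN => ?_⟩
  refine DD.no_map DD_free DD_conc f (fun r => ?_) N hN
  obtain ⟨s, hs⟩ := hf (r + 1) (by positivity)
  exact ⟨⌊s⌋₊, fun x x' h => DD.gY.rel_of_dist_le
    (hs x x' ((DD.gX.dist_le_nat.2 h).trans (by linarith)))⟩

end Pool.Agent.H596Z.Emb
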