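import Pool.Agent.H596Z.Emb.Tree

/-!
Few points are fixed by short words in random permutations.
-/

set_option autoImplicit false
set_option linter.unusedSectionVars false

namespace Pool.Agent.H596Z.Emb

open Equiv

variable {ι V : Type} [DecidableEq ι] [Fintype ι] [DecidableEq V] [Fintype V]

/-- action of a letter -/
def act (ω : ι → Perm V) (s : ι × Bool) : Perm V := cond s.2 (ω s.1) (ω s.1)⁻¹

/-- end point of a word -/
def pt (ω : ι → Perm V) (u : V) (L : List (ι × Bool)) : V := FreeGroup.lift ω (FreeGroup.mk L) u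

theorem pt_nil (ω : ι → Perm V) (u : V) : pt ω u [] = u := rfl

theorem pt_cons (ω : ι → Perm V) (u : V) (s : ι × Bool) (L : List (ι × Bool)) :
    pt ω u (s :: L) = act ω s (pt ω u L) := rfl

/-- the trajectory is injective -/
def Inj (ω : ι → Perm V) (u : V) (L : List (ι × Bool)) : Prop :=
  ∀ L1 L2, L1 <:+ L → L2 <:+ L → pt ω u L1 = pt ω u L2 → L1 = L2

/-- the visited points -/
def vis (ω : ι → Perm V) (u : V) (L : List (ι × Bool)) : Finset V :=
  (L.tails.map (pt ω u)).toFinset

theorem mem_vis {ω : ι → Perm V} {u : V} {L : List (ι × Bool)} {y : V} :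
    y ∈ vis ω u L ↔ ∃ L1, L1 <:+ L ∧ pt ω u L1 = y := by
  simp [vis]

theorem card_vis (ω : ι → Perm V) (u : V) (L : List (ι × Bool)) :
    (vis ω u L).card ≤ L.length + 1 := by
  refine (List.toFinset_card_le _).trans ?_
  simp

/-- the switch -/
def sw (ω : ι → Perm V) (s : ι × Bool) (y z : V) : ι → Perm V :=
  Function.update ω s.1 (cond s.2 (swap y z * ω s.1) (ω s.1 * swap y z))

theorem act_sw_self (ω : ι → Perm V) (s : ι × Bool) (y z : V) :
    act (sw ω s y z) s = swap y z * act ω s := by
  obtain ⟨i, b⟩ := s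
  cases b <;> simp [act, sw]

theorem act_sw_inv (ω : ι → Perm V) (s t : ι × Bool) (y z : V) (h1 : t.1 = s.1) (h2 : t.2 ≠ s.2) :
    act (sw ω s y z) t = act ω t * swap y z ∧ act ω t = (act ω s)⁻¹ := by
  obtain ⟨i, b⟩ := s
  obtain ⟨j, c⟩ := t
  simp only at h1 h2
  subst h1
  cases b <;> cases c <;> simp_all [act, sw]

theorem act_sw_ne (ω : ι → Perm V) (s t : ι × Bool) (y z : V) (h1 : t.1 ≠ s.1) :
    act (sw ω s y z) t = act ω t := by
  simp [act, sw, Function.update_of_ne h1]

theorem sw_sw (ω : ι → Perm V) (s : ι × Bool) (y z : V) : sw (sw ω s y z) s y z = ω := by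
  obtain ⟨i, b⟩ := s
  funext j
  by_cases h : j = i
  · subst h
    cases b <;> simp [sw, ← mul_assoc, mul_assoc (ω j)]
  · simp [sw, Function.update_of_ne h]

theorem pt_sw {ω : ι → Perm V} {u : V} {s : ι × Bool} {L : List (ι × Bool)}
    (hred : FreeGroup.IsReduced (s :: L)) (hinj : Inj ω u L) {z : V} (hz : z ∉ vis ω u L)
    (L1 : List (ι × Bool)) (h : L1 <:+ L) :
    pt (sw ω s (pt ω u (s :: L)) z) u L1 = pt ω u L1 := by
  induction L1 with
  | nil => rfl
  | cons t L2 ih =>
    have h2 : L2 <:+ L := (List.suffix_cons t L2).trans h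
    rw [pt_cons, ih h2, pt_cons ω u t]
    have hlen := h.length_le
    by_cases h3 : t.1 = s.1
    · by_cases h4 : t.2 = s.2
      · have h5 : t = s := Prod.ext h3 h4
        subst h5
        rw [act_sw_self, Perm.mul_apply, swap_apply_of_ne_of_ne]
        · intro h6
          rw [pt_cons] at h6
          have h7 := hinj _ _ h2 (List.suffix_refl L) ((act ω t).injective h6)
          rw [← h7] at hlen
          simp at hlen
        · intro h6
          exact hz (mem_vis.2 ⟨_, h, h6⟩)
      · obtain ⟨h5, h6⟩ := act_sw_inv ω s t (pt ω u (s :: L)) z h3 h4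
        rw [h5, Perm.mul_apply, swap_apply_of_ne_of_ne]
        · intro h7
          have h8 : pt ω u (t :: L2) = pt ω u L := by
            rw [pt_cons, h7, h6, pt_cons]
            simp
          have h9 := hinj _ _ h (List.suffix_refl L) h8
          rw [← h9] at hred
          exact h4 ((FreeGroup.isReduced_cons_cons.1 hred).1 h3.symm).symm
        · intro h7
          exact hz (mem_vis.2 ⟨_, h2, h7⟩)
    · rw [act_sw_ne _ _ _ _ _ h3]

open Classical in
theorem card_step (u : V) {s : ι × Bool} {L : List (ι × Bool)}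
    (hred : FreeGroup.IsReduced (s :: L)) :
    (Finset.univ.filter fun ω : ι → Perm V => Inj ω u L ∧ pt ω u (s :: L) ∈ vis ω u L).card *
      (Fintype.card V - (L.length + 1)) ≤ Fintype.card (ι → Perm V) * (L.length + 1) := by
  set B := Finset.univ.filter fun ω : ι → Perm V => Inj ω u L ∧ pt ω u (s :: L) ∈ vis ω u L
    with hB
  have h1 : B.card * (Fintype.card V - (L.length + 1)) ≤
      (B.sigma fun ω => (vis ω u L)ᶜ).card := by
    rw [Finset.card_sigma, ← smul_eq_mul]
    refine Finset.card_nsmul_le_sum _ _ _ fun ω _ => ?_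
    rw [Finset.card_compl]
    have := card_vis ω u L
    omega
  have h2 : ((Finset.univ : Finset (ι → Perm V)).sigma fun ω => vis ω u L).card ≤
      Fintype.card (ι → Perm V) * (L.length + 1) := by
    rw [Finset.card_sigma, ← smul_eq_mul, ← Finset.card_univ]
    exact Finset.sum_le_card_nsmul _ _ _ fun ω _ => card_vis ω u L
  refine h1.trans (le_trans ?_ h2)
  have hv : ∀ ω ∈ B, ∀ z, z ∉ vis ω u L →
      pt (sw ω s (pt ω u (s :: L)) z) u (s :: L) = z := by
    intro ω hω z hz
    rw [hB, Finset.mem_filter] at hω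
    rw [pt_cons, pt_sw hred hω.2.1 hz L (List.suffix_refl L), act_sw_self, Perm.mul_apply,
      ← pt_cons, swap_apply_left]
  refine Finset.card_le_card_of_injOn
    (fun p => ⟨sw p.1 s (pt p.1 u (s :: L)) p.2, pt p.1 u (s :: L)⟩) ?_ ?_
  · rintro ⟨ω, z⟩ hp
    simp only [Finset.coe_sigma, Set.mem_sigma_iff, Finset.mem_coe, Finset.mem_compl] at hp ⊢
    refine ⟨Finset.mem_univ _, ?_⟩
    have h3 := hp.1
    rw [hB, Finset.mem_filter] at h3
    obtain ⟨L1, h4, h5⟩ := mem_vis.1 h3.2.2
    exact mem_vis.2 ⟨L1, h4, (pt_sw hred h3.2.1 hp.2 L1 h4).trans h5⟩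
  · rintro ⟨ω, z⟩ hp ⟨ω', z'⟩ hp' h
    simp only [Finset.coe_sigma, Set.mem_sigma_iff, Finset.mem_coe, Finset.mem_compl] at hp hp'
    simp only [Sigma.mk.injEq, heq_eq_eq] at h
    obtain ⟨h3, h4⟩ := h
    have h5 : z = z' := by
      rw [← hv ω hp.1 z hp.2, ← hv ω' hp'.1 z' hp'.2, h3]
    subst h5
    rw [h4] at h3
    have h6 : ω = ω' := by
      rw [← sw_sw ω s (pt ω' u (s :: L)) z, h3, sw_sw]
    rw [h6]

open Classical in
theorem card_notInj (u : V) (n : ℕ) (L : List (ι × Bool)) (hred : FreeGroup.IsReduced L)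
    (hn : L.length ≤ n) :
    (Finset.univ.filter fun ω : ι → Perm V => ¬ Inj ω u L).card * (Fintype.card V - n) ≤
      Fintype.card (ι → Perm V) * (L.length * n) := by
  induction L with
  | nil =>
    have : (Finset.univ.filter fun ω : ι → Perm V => ¬ Inj ω u []) = ∅ := by
      apply Finset.filter_false_of_mem
      intro ω _ h
      apply h
      intro L1 L2 h1 h2 _
      rw [List.suffix_nil.1 h1, List.suffix_nil.1 h2]
    rw [this]
    simp
  | cons s L ih =>
    rw [List.length_cons] at hn
    have h1 := ih (List.IsChain.tail hred) (by omega)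
    have h2 := card_step (V := V) u hred
    have h3 : (Finset.univ.filter fun ω : ι → Perm V => ¬ Inj ω u (s :: L)) ⊆
        (Finset.univ.filter fun ω : ι → Perm V => ¬ Inj ω u L) ∪
        (Finset.univ.filter fun ω : ι → Perm V => Inj ω u L ∧ pt ω u (s :: L) ∈ vis ω u L) := by
      intro ω hω
      simp only [Finset.mem_union, Finset.mem_filter, Finset.mem_univ, true_and] at hω ⊢
      by_contra h4
      push Not at h4
      apply hω
      intro L1 L2 h5 h6 h7
      rcases List.suffix_cons_iff.1 h5 with h8 | h8 <;>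
        rcases List.suffix_cons_iff.1 h6 with h9 | h9
      · rw [h8, h9]
      · exact absurd (mem_vis.2 ⟨L2, h9, by rw [← h7, h8]⟩) (h4.2 h4.1)
      · exact absurd (mem_vis.2 ⟨L1, h8, by rw [h7, h9]⟩) (h4.2 h4.1)
      · exact h4.1 _ _ h8 h9 h7
    have h4 := (Finset.card_le_card h3).trans (Finset.card_union_le _ _)
    calc _ ≤ ((Finset.univ.filter fun ω : ι → Perm V => ¬ Inj ω u L).card +
          (Finset.univ.filter fun ω : ι → Perm V =>
            Inj ω u L ∧ pt ω u (s :: L) ∈ vis ω u L).card) * (Fintype.card V - n) :=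
          Nat.mul_le_mul_right _ h4
      _ ≤ Fintype.card (ι → Perm V) * (L.length * n) + Fintype.card (ι → Perm V) * n := by
          rw [add_mul]
          refine add_le_add h1 ?_
          calc _ ≤ (Finset.univ.filter fun ω : ι → Perm V =>
                Inj ω u L ∧ pt ω u (s :: L) ∈ vis ω u L).card *
                (Fintype.card V - (L.length + 1)) := Nat.mul_le_mul_left _ (by omega)
            _ ≤ _ := h2.trans (Nat.mul_le_mul_left _ hn)
      _ = _ := by rw [List.length_cons]; ring

open Classical in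
/-- points fixed by a short nontrivial word -/
noncomputable def W (ω : ι → Perm V) (n : ℕ) : Finset V :=
  Finset.univ.filter fun u => ∃ w : FreeGroup ι, w ≠ 1 ∧ w.norm ≤ n ∧ FreeGroup.lift ω w u = u

open Classical in
theorem card_fixed (u : V) (n : ℕ) :
    (Finset.univ.filter fun ω : ι → Perm V => u ∈ W ω n).card * (Fintype.card V - n) ≤
      (ball ι n).card * (Fintype.card (ι → Perm V) * (n * n)) := by
  have h1 : (Finset.univ.filter fun ω : ι → Perm V => u ∈ W ω n) ⊆
      (ball ι n).biUnion fun w => Finset.univ.filter fun ω : ι → Perm V => ¬ Inj ω u w.toWord := by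
    intro ω hω
    simp only [W, Finset.mem_filter, Finset.mem_univ, true_and, Finset.mem_biUnion] at hω ⊢
    obtain ⟨w, h1, h2, h3⟩ := hω
    refine ⟨w, mem_ball.2 h2, fun h => h1 ?_⟩
    rw [← FreeGroup.toWord_eq_nil_iff]
    apply h _ _ (List.suffix_refl _) (List.nil_suffix)
    rw [pt, FreeGroup.mk_toWord, h3, pt_nil]
  calc _ ≤ (∑ w ∈ ball ι n,
        (Finset.univ.filter fun ω : ι → Perm V => ¬ Inj ω u w.toWord).card) *
        (Fintype.card V - n) :=
        Nat.mul_le_mul_right _ ((Finset.card_le_card h1).trans Finset.card_biUnion_le)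
    _ ≤ _ := by
        rw [Finset.sum_mul, ← smul_eq_mul]
        refine Finset.sum_le_card_nsmul _ _ _ fun w hw => ?_
        have h2 : w.toWord.length ≤ n := mem_ball.1 hw
        exact (card_notInj u n _ FreeGroup.isReduced_toWord h2).trans
          (Nat.mul_le_mul_left _ (Nat.mul_le_mul_right _ h2))

open Classical in
theorem card_badW (n : ℕ) (hV : n + 4 * (ball ι n).card * (n * n) < Fintype.card V) :
    2 * (Finset.univ.filter fun ω : ι → Perm V => Fintype.card V < 2 * (W ω n).card).card ≤
      Fintype.card (ι → Perm V) := by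
  set m := Fintype.card V with hm
  set Ω := Fintype.card (ι → Perm V) with hΩ
  set K := (ball ι n).card with hK
  set b := (Finset.univ.filter fun ω : ι → Perm V => m < 2 * (W ω n).card).card with hb
  have h1 : ∑ ω : ι → Perm V, (W ω n).card =
      ∑ u : V, (Finset.univ.filter fun ω : ι → Perm V => u ∈ W ω n).card := by
    simp only [Finset.card_filter]
    rw [Finset.sum_comm]
    refine Finset.sum_congr rfl fun ω _ => ?_
    rw [← Finset.card_filter]
    simp
  have h2 : (∑ ω : ι → Perm V, (W ω n).card) * (m - n) ≤ m * (K * (Ω * (n * n))) := by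
    rw [h1, Finset.sum_mul, hm, ← smul_eq_mul, ← Finset.card_univ]
    exact Finset.sum_le_card_nsmul _ _ _ fun u _ => card_fixed u n
  have h3 : b * m ≤ 2 * ∑ ω : ι → Perm V, (W ω n).card := by
    rw [Finset.mul_sum, hb, ← smul_eq_mul]
    refine (Finset.card_nsmul_le_sum _ (fun ω => 2 * (W ω n).card) _ fun ω hω => ?_).trans
      (Finset.sum_le_sum_of_subset (Finset.subset_univ _))
    exact (Finset.mem_filter.1 hω).2.le
  have hm0 : 0 < m := by omega
  have h4 : m * (b * (m - n)) ≤ m * (2 * (K * (Ω * (n * n)))) := by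
    calc m * (b * (m - n)) = b * m * (m - n) := by ring
      _ ≤ (2 * ∑ ω : ι → Perm V, (W ω n).card) * (m - n) := Nat.mul_le_mul_right _ h3
      _ ≤ 2 * (m * (K * (Ω * (n * n)))) := by rw [mul_assoc]; exact Nat.mul_le_mul_left _ h2
      _ = _ := by ring
  have h5 := Nat.le_of_mul_le_mul_left h4 hm0
  have h6 : 4 * K * (n * n) < m - n := by omega
  by_contra h7
  push Not at h7
  have h8 : Ω * (4 * K * (n * n)) < 2 * b * (m - n) :=
    Nat.mul_lt_mul'' h7 h6
  nlinarith

end Pool.Agent.H596Z.Emb
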