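import Pool.Agent.H596Z.Emb.Cyc
import Pool.Agent.Helper799.Exist

/-!
Existence of expanding permutations with few short cycles.
-/

set_option autoImplicit false
set_option linter.unusedSectionVars false

namespace Pool.Agent.H596Z.Emb

open Equiv Pool.Agent.Helper799.Exist Pool.Agent.Helper799.Union

/-- the out-neighbourhood -/
def nb {V : Type} [DecidableEq V] (σ : Fin 24 → Perm V) (S : Finset V) : Finset V :=
  Finset.univ.biUnion fun i => S.image (σ i)

theorem mem_nb {V : Type} [DecidableEq V] {σ : Fin 24 → Perm V} {S : Finset V} {y : V} :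
    y ∈ nb σ S ↔ ∃ i, ∃ x ∈ S, σ i x = y := by
  simp [nb]

/-- vertex expansion -/
def Exp {V : Type} [DecidableEq V] [Fintype V] (σ : Fin 24 → Perm V) : Prop :=
  ∀ S : Finset V, 2 * S.card ≤ Fintype.card V → 3 * S.card ≤ 2 * (nb σ S).card

open Classical in
theorem card_notExp (N : ℕ) (hN : 0 < N) :
    7 * (Finset.univ.filter fun σ : Fin 24 → Perm (Fin N) => ¬ Exp σ).card ≤
      Fintype.card (Fin 24 → Perm (Fin N)) := by
  obtain ⟨F, hF⟩ : ∃ F : ℝ, F = (Nat.factorial N : ℝ) ^ 24 := ⟨_, rfl⟩
  have hF0 : 0 < F := by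
    have : (0:ℝ) < Nat.factorial N := by exact_mod_cast Nat.factorial_pos N
    rw [hF]
    positivity
  let bad1 : Finset (Fin 24 → Perm (Fin N)) :=
    ((Finset.univ : Finset (Fin N)).powerset.filter (fun S => 1 ≤ S.card ∧ 2 * S.card ≤ N)).biUnion
      (fun S => (Finset.powersetCard (3 * S.card / 2) (Finset.univ : Finset (Fin N))).biUnion
        (fun T => B1 N S T))
  have hb1 : (bad1.card : ℝ) ≤ (1 / 7) * F := by
    have h1 : (bad1.card : ℝ) ≤ ∑ S ∈ (Finset.univ : Finset (Fin N)).powerset.filter
        (fun S => 1 ≤ S.card ∧ 2 * S.card ≤ N),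
        ((N.choose (3 * S.card / 2) : ℝ)
          * (((((3 * S.card / 2 : ℕ) : ℝ)) / N) ^ S.card) ^ 24) * F := by
      calc (bad1.card : ℝ) ≤ ∑ S ∈ (Finset.univ : Finset (Fin N)).powerset.filter
            (fun S => 1 ≤ S.card ∧ 2 * S.card ≤ N),
            (((Finset.powersetCard (3 * S.card / 2) (Finset.univ : Finset (Fin N))).biUnion
              (fun T => B1 N S T)).card : ℝ) := by
            exact_mod_cast Finset.card_biUnion_le
        _ ≤ _ := by
            apply Finset.sum_le_sum
            intro S hS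
            calc (((Finset.powersetCard (3 * S.card / 2) (Finset.univ : Finset (Fin N))).biUnion
                  (fun T => B1 N S T)).card : ℝ)
                ≤ ∑ T ∈ Finset.powersetCard (3 * S.card / 2) (Finset.univ : Finset (Fin N)),
                  ((B1 N S T).card : ℝ) := by exact_mod_cast Finset.card_biUnion_le
              _ ≤ ∑ T ∈ Finset.powersetCard (3 * S.card / 2) (Finset.univ : Finset (Fin N)),
                  (((((3 * S.card / 2 : ℕ) : ℝ)) / N) ^ S.card) ^ 24 * F := by
                  apply Finset.sum_le_sum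
                  intro T hT
                  rw [Finset.mem_powersetCard] at hT
                  exact B1_card N hN S T F hF _ _ rfl hT.2
              _ = _ := by
                  rw [Finset.sum_const, Finset.card_powersetCard, Finset.card_univ,
                    Fintype.card_fin, nsmul_eq_mul]
                  ring
    let g : ℕ → ℝ := fun s => if 1 ≤ s ∧ 2 * s ≤ N then
      ((N.choose (3 * s / 2) : ℝ) * (((((3 * s / 2 : ℕ) : ℝ)) / N) ^ s) ^ 24) else 0
    have h2 : ∑ S ∈ (Finset.univ : Finset (Fin N)).powerset.filter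
        (fun S => 1 ≤ S.card ∧ 2 * S.card ≤ N),
        ((N.choose (3 * S.card / 2) : ℝ)
          * (((((3 * S.card / 2 : ℕ) : ℝ)) / N) ^ S.card) ^ 24) * F
        = (∑ S ∈ (Finset.univ : Finset (Fin N)).powerset, g S.card) * F := by
      rw [Finset.sum_filter, Finset.sum_mul]
      apply Finset.sum_congr rfl
      intro S _
      simp only [g]
      split_ifs <;> simp
    rw [h2, Finset.sum_powerset_apply_card, Finset.card_univ, Fintype.card_fin] at h1
    refine h1.trans ?_
    apply mul_le_mul_of_nonneg_right _ hF0.le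
    calc ∑ s ∈ Finset.range (N + 1), N.choose s • g s
        ≤ ∑ s ∈ Finset.range (N + 1), (if s = 0 then 0 else (1 / 8 : ℝ) ^ s) := by
          apply Finset.sum_le_sum
          intro s _
          simp only [g]
          by_cases hs : 1 ≤ s ∧ 2 * s ≤ N
          · rw [if_pos hs, if_neg (by omega), nsmul_eq_mul]
            exact term1 N s hs.1 hs.2
          · rw [if_neg hs]
            simp only [smul_zero]
            split_ifs <;> positivity
      _ ≤ (1 / 8) / (1 - 1 / 8) := geom_bound _ (by norm_num) (by norm_num) _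
      _ = 1 / 7 := by norm_num
  have hcard : (Fintype.card (Fin 24 → Perm (Fin N)) : ℝ) = F := by
    rw [Fintype.card_fun, Fintype.card_perm, Fintype.card_fin, Fintype.card_fin, hF]
    push_cast
    rfl
  have hsub : (Finset.univ.filter fun σ : Fin 24 → Perm (Fin N) => ¬ Exp σ) ⊆ bad1 := by
    intro σ hσ
    rw [Finset.mem_filter] at hσ
    have h1 := hσ.2
    unfold Exp at h1
    push Not at h1
    obtain ⟨S, h2, h3⟩ := h1
    rw [Fintype.card_fin] at h2
    obtain ⟨T, h4, -, h5⟩ := Finset.exists_subsuperset_card_eq (Finset.subset_univ (nb σ S))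
      (show (nb σ S).card ≤ 3 * S.card / 2 by omega)
      (by rw [Finset.card_univ, Fintype.card_fin]; omega)
    simp only [bad1, Finset.mem_biUnion, Finset.mem_filter, Finset.mem_powersetCard, B1]
    exact ⟨S, ⟨Finset.mem_powerset.2 (Finset.subset_univ _), by omega, h2⟩, T,
      ⟨Finset.subset_univ _, h5⟩, Finset.mem_univ _, fun i x hx => h4 (mem_nb.2 ⟨i, x, hx, rfl⟩)⟩
  have h3 : ((Finset.univ.filter fun σ : Fin 24 → Perm (Fin N) => ¬ Exp σ).card : ℝ) ≤
      bad1.card := by exact_mod_cast Finset.card_le_card hsub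
  have h4 : (7:ℝ) * (Finset.univ.filter fun σ : Fin 24 → Perm (Fin N) => ¬ Exp σ).card ≤
      Fintype.card (Fin 24 → Perm (Fin N)) := by
    rw [hcard]
    linarith
  exact_mod_cast h4

/-- the alphabet -/
abbrev Let : Type := Fin 24 ⊕ Fin 24

theorem exists_tau (n : ℕ) : ∃ m : ℕ, n < m ∧ ∃ τ : Let → Perm (Fin m),
    Exp (fun i => τ (Sum.inl i)) ∧ 2 * (W τ n).card ≤ m := by
  classical
  obtain ⟨m, hm⟩ : ∃ m, m = n + 4 * (ball Let n).card * (n * n) + 1 := ⟨_, rfl⟩
  refine ⟨m, by omega, ?_⟩
  have h1 := card_badW (ι := Let) (V := Fin m) n (by rw [Fintype.card_fin]; omega)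
  have h2 := card_notExp m (by omega)
  have h3 : (Finset.univ.filter fun τ : Let → Perm (Fin m) =>
      ¬ Exp (fun i => τ (Sum.inl i))).card ≤
      (Finset.univ.filter fun σ : Fin 24 → Perm (Fin m) => ¬ Exp σ).card *
        Fintype.card (Fin 24 → Perm (Fin m)) := by
    rw [← Finset.card_univ, ← Finset.card_product]
    refine Finset.card_le_card_of_injOn (Equiv.sumArrowEquivProdArrow _ _ _) ?_
      (Equiv.injective _).injOn
    intro τ hτ
    simp only [Finset.coe_filter, Finset.mem_univ, true_and, Set.mem_ofPred_eq,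
      Finset.coe_product, Set.mem_prod, Finset.coe_univ, Set.mem_univ, and_true] at hτ ⊢
    exact hτ
  have h4 : Fintype.card (Let → Perm (Fin m)) =
      Fintype.card (Fin 24 → Perm (Fin m)) * Fintype.card (Fin 24 → Perm (Fin m)) := by
    rw [Fintype.card_congr (Equiv.sumArrowEquivProdArrow _ _ _), Fintype.card_prod]
  have h5 : 0 < Fintype.card (Let → Perm (Fin m)) := Fintype.card_pos
  by_contra h6
  push Not at h6
  have h7 : (Finset.univ : Finset (Let → Perm (Fin m))) ⊆
      (Finset.univ.filter fun τ : Let → Perm (Fin m) => ¬ Exp (fun i => τ (Sum.inl i))) ∪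
      (Finset.univ.filter fun ω : Let → Perm (Fin m) =>
        Fintype.card (Fin m) < 2 * (W ω n).card) := by
    intro τ _
    simp only [Finset.mem_union, Finset.mem_filter, Finset.mem_univ, true_and, Fintype.card_fin]
    by_cases h : Exp (fun i => τ (Sum.inl i))
    · exact Or.inr (h6 τ h)
    · exact Or.inl h
  have h8 := (Finset.card_le_card h7).trans (Finset.card_union_le _ _)
  rw [Finset.card_univ] at h8
  have h9 := Nat.mul_le_mul_right (Fintype.card (Fin 24 → Perm (Fin m))) h2
  rw [← h4, mul_assoc] at h9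
  omega

end Pool.Agent.H596Z.Emb
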